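import Mathlib
import Pool.Agent.T9h20.RealDefs

/-!
Monotone real circuits with gates of large fan-in, which read monotone functions of subformulas of a
CNF formula, and distributions on unsatisfiable formulas.
-/

namespace Pool.Agent.T9h20

/-- A wire of a circuit: it carries an input or the value of the gate with the given number. -/
inductive FWire (ι : Type) : Type where
  | input (i : ι) : FWire ι
  | gate (j : ℕ) : FWire ι

/-- A gate of a monotone real circuit: an arbitrary real function of the values of its wires which
is nondecreasing in all of them. -/
structure FGate (ι : Type) where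
  /-- the number of wires read by the gate -/
  fanIn : ℕ
  /-- the wires read by the gate -/
  wire : Fin fanIn → FWire ι
  /-- the function computed by the gate -/
  op : (Fin fanIn → ℝ) → ℝ
  /-- the function is nondecreasing -/
  mono : ∀ u v : Fin fanIn → ℝ, (∀ i, u i ≤ v i) → op u ≤ op v

/-- A monotone real circuit with inputs indexed by `ι`: its gates are `gate 0, …, gate (size - 1)`
(`gate j` for `j ≥ size` plays no role), and its output is the wire `out`. -/
structure FCircuit (ι : Type) where
  /-- the number of gates -/
  size : ℕ
  /-- the gates -/
  gate : ℕ → FGate ι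
  /-- the output wire -/
  out : FWire ι

variable {ι : Type}

/-- The value of a wire, given the input `x` and the values `v` of the gates. -/
def FWire.eval (x : ι → ℝ) (v : ℕ → ℝ) : FWire ι → ℝ
  | input i => x i
  | gate j => v j

/-- The value of gate number `i` on input `x`. The gate reads the values of gates with smaller
numbers only (a wire from any other gate number carries the constant `0`). -/
noncomputable def FCircuit.val (M : FCircuit ι) (x : ι → ℝ) : ℕ → ℝ
  | i => (M.gate i).op (fun l =>
      ((M.gate i).wire l).eval x (fun j => if _h : j < i then M.val x j else 0))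
termination_by i => i

/-- The value computed by the circuit on input `x`. -/
noncomputable def FCircuit.eval (M : FCircuit ι) (x : ι → ℝ) : ℝ :=
  M.out.eval x (fun j => if j < M.size then M.val x j else 0)

/-- All gates of the circuit read at most `f` wires. -/
def FCircuit.FanInLe (M : FCircuit ι) (f : ℕ) : Prop := ∀ j < M.size, (M.gate j).fanIn ≤ f

/-- All inputs read by the circuit have the property `P`. -/
def FCircuit.Reads (M : FCircuit ι) (P : ι → Prop) : Prop :=
  (∀ j < M.size, ∀ l i, (M.gate j).wire l = FWire.input i → P i) ∧
    ∀ i, M.out = FWire.input i → P i

/-- The subformula of `φ` induced by the set `S` of variables: all clauses of `φ` all of whose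
variables belong to `S`. -/
def induced {n : ℕ} (φ : CNF n) (S : Finset (Fin n)) : CNF n :=
  φ.filter (fun C => ∀ l ∈ C, l.1 ∈ S)

/-- A nondecreasing real function `fn` of the subformula induced by the set `scope` of variables. -/
structure SubFn (n : ℕ) where
  /-- the set of variables -/
  scope : Finset (Fin n)
  /-- the function -/
  fn : CNF n → ℝ
  /-- the function is nondecreasing with respect to inclusion of formulas -/
  mono : ∀ φ ψ : CNF n, φ ⊆ ψ → fn φ ≤ fn ψ

/-- The value of the function of a subformula on the formula `φ`. -/
def SubFn.eval {n : ℕ} (φ : CNF n) (q : SubFn n) : ℝ := q.fn (induced φ q.scope)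

/-- The value computed by the circuit `M` on the CNF formula `φ`; the inputs of the circuit are
functions of subformulas of `φ`. -/
noncomputable def FCircuit.value {n : ℕ} (M : FCircuit (SubFn n)) (φ : CNF n) : ℝ :=
  M.eval (SubFn.eval φ)

/-- Every input of the circuit is a function of the subformula induced by some set of at most `m`
variables. -/
def FCircuit.ScopeLe {n : ℕ} (M : FCircuit (SubFn n)) (m : ℝ) : Prop :=
  M.Reads (fun q => (q.scope.card : ℝ) ≤ m)

/-- `μ` is a probability distribution on the unsatisfiable formulas whose clauses belong to `𝒞`. -/
structure UnsatDistribution {n : ℕ} (𝒞 : CNF n) (μ : CNF n → ℝ) : Prop where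
  nonneg : ∀ φ, 0 ≤ μ φ
  sum_eq_one : ∑ φ : CNF n, μ φ = 1
  unsat : ∀ φ, μ φ ≠ 0 → φ ⊆ 𝒞 ∧ Unsat φ

open Classical in
/-- The probability that a random formula with distribution `μ` has the property `P`. -/
noncomputable def prob {n : ℕ} (μ : CNF n → ℝ) (P : CNF n → Prop) : ℝ :=
  ∑ φ : CNF n, if P φ then μ φ else 0

end Pool.Agent.T9h20
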