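import Mathlib
import Pool.Agent.T9h20.RealApprox
import Pool.Agent.T9h20.W.Defs

/-!
Relative plucking: the assignments lost at a gate of large fan-in.
-/

namespace Pool.Agent.T9h20

open Finset

set_option linter.unusedSectionVars false
set_option linter.unusedVariables false

section WideApprox

variable {N : ℕ} {A : Type} [Fintype A] [DecidableEq A] [Inhabited A]
variable {p δ : ℝ} {k c : ℕ}

/-- Plucking relative to a common subterm `(R, w)`. -/
lemma pluckRel (h0 : 0 < p) (h1 : p ≤ 1) (d : ℕ) (hd : 1 ≤ d) (hk : 1 ≤ k) (hN : 1 ≤ N)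
    (x : ℝ) (hx : x = (p ^ (c - 1).choose (k - 1))⁻¹ / 2 ^ d) (hx1 : x ≤ 1)
    (hδ : Real.exp (-(1 / (4 * ((1 + x) ^ N - 1)))) ≤ δ) (l : ℕ) (hl : l ≤ c)
    (T : Finset (Term N A)) (hTl : ∀ t ∈ T, t.1.card = l) (hnorm : ∀ t ∈ T, mask t.1 t.2 = t.2)
    (R : Finset (Fin N)) (w : Fin N → A) (hRT : ∀ t ∈ T, R ⊆ t.1 ∧ ∀ i ∈ R, t.2 i = w i)
    (hcon : 2 ^ (d * l) < T.card * 2 ^ (d * R.card)) :
    ∃ (s : Term N A) (LK : Finset (Term N A)), LK ⊆ T ∧ LK.Nonempty ∧ R ⊆ s.1 ∧ s.1.card < l ∧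
      (∀ t ∈ LK, s.1 ⊆ t.1 ∧ mask s.1 t.2 = s.2) ∧
      ∀ U : Finset (Term N A), ClosedF p δ k c U → LK ⊆ U → s ∈ U := by
  classical
  obtain ⟨g, hg⟩ : ∃ g : Finset (Fin N) × (Fin N → A) → ℕ, g = fun q =>
    (T.filter (fun t => q.1 ⊆ t.1 ∧ ∀ i ∈ q.1, t.2 i = q.2 i)).card * 2 ^ (d * q.1.card) :=
    ⟨_, rfl⟩
  obtain ⟨⟨S, z⟩, _, hmax⟩ := Finset.exists_max_image
    (Finset.univ : Finset (Finset (Fin N) × (Fin N → A))) g ⟨(∅, default), Finset.mem_univ _⟩
  have hmax' : ∀ q, g q ≤ g (S, z) := fun q => hmax q (Finset.mem_univ _)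
  obtain ⟨LK, hLK⟩ : ∃ LK, LK = T.filter (fun t => S ⊆ t.1 ∧ ∀ i ∈ S, t.2 i = z i) := ⟨_, rfl⟩
  have hgS : g (S, z) = LK.card * 2 ^ (d * S.card) := by
    rw [hg, hLK]
  have hbig : 2 ^ (d * l) < LK.card * 2 ^ (d * S.card) := by
    rw [← hgS]
    refine lt_of_lt_of_le hcon ?_
    refine le_trans ?_ (hmax' (R, w))
    rw [hg]
    dsimp only
    apply Nat.mul_le_mul_right
    apply Finset.card_le_card
    intro t ht
    exact Finset.mem_filter.2 ⟨ht, hRT t ht⟩
  have hLKne : LK.Nonempty := by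
    rw [Finset.nonempty_iff_ne_empty]
    intro he
    rw [he] at hbig
    simp at hbig
  have hLKm : ∀ t ∈ LK, t ∈ T ∧ S ⊆ t.1 ∧ ∀ i ∈ S, t.2 i = z i := by
    intro t ht
    rw [hLK] at ht
    exact Finset.mem_filter.1 ht
  have hLKpos : 0 < LK.card := Finset.card_pos.2 hLKne
  obtain ⟨t0, ht0⟩ := hLKne
  have hRS : R ⊆ S := by
    by_contra hRS
    have h2 := hmax' (S ∪ R, fun i => if i ∈ S then z i else w i)
    rw [hgS, hg] at h2
    dsimp only at h2
    have h3 : LK.card ≤ (T.filter (fun t => S ∪ R ⊆ t.1 ∧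
        ∀ i ∈ S ∪ R, t.2 i = (if i ∈ S then z i else w i))).card := by
      apply Finset.card_le_card
      intro t ht
      obtain ⟨g4, g5, g6⟩ := hLKm t ht
      obtain ⟨g7, g8⟩ := hRT t g4
      refine Finset.mem_filter.2 ⟨g4, Finset.union_subset g5 g7, ?_⟩
      intro i hi
      by_cases hiS : i ∈ S
      · rw [if_pos hiS]; exact g6 i hiS
      · rw [if_neg hiS]
        rcases Finset.mem_union.1 hi with h | h
        · exact absurd h hiS
        · exact g8 i h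
    have h4 : S.card < (S ∪ R).card := by
      apply Finset.card_lt_card
      rw [Finset.ssubset_iff_subset_ne]
      refine ⟨Finset.subset_union_left, ?_⟩
      intro he
      apply hRS
      rw [he]
      exact Finset.subset_union_right
    have h5 : 2 ^ (d * S.card) < 2 ^ (d * (S ∪ R).card) :=
      Nat.pow_lt_pow_right (by norm_num) (Nat.mul_lt_mul_of_pos_left h4 (by omega))
    have h6 : LK.card * 2 ^ (d * S.card) < LK.card * 2 ^ (d * (S ∪ R).card) :=
      Nat.mul_lt_mul_of_pos_left h5 hLKpos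
    have h7 := Nat.mul_le_mul_right (2 ^ (d * (S ∪ R).card)) h3
    omega
  have hSl : S.card ≤ l := by
    obtain ⟨g1, g2, _⟩ := hLKm t0 ht0
    rw [← hTl t0 g1]
    exact Finset.card_le_card g2
  have hSlt : S.card < l := by
    rcases Nat.lt_or_ge S.card l with h | h
    · exact h
    exfalso
    have hSeq : ∀ t ∈ LK, S = t.1 := by
      intro t ht
      obtain ⟨g1, g2, _⟩ := hLKm t ht
      apply Finset.eq_of_subset_of_card_le g2
      rw [hTl t g1]
      exact h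
    have hone : LK.card ≤ 1 := by
      rw [Finset.card_le_one]
      intro a ha a' ha'
      obtain ⟨g1, _, g3⟩ := hLKm a ha
      obtain ⟨g1', _, g3'⟩ := hLKm a' ha'
      apply Prod.ext
      · rw [← hSeq a ha, ← hSeq a' ha']
      · rw [← hnorm a g1, ← hnorm a' g1', ← hSeq a ha, ← hSeq a' ha', mask_eq_iff]
        intro i hi
        rw [g3 i hi, g3' i hi]
    have hle : LK.card * 2 ^ (d * S.card) ≤ 1 * 2 ^ (d * l) :=
      Nat.mul_le_mul hone (Nat.pow_le_pow_right (by norm_num) (Nat.mul_le_mul_left d hSl))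
    omega
  have hspread : Spread d LK S := by
    intro I hI τ
    have h2 := hmax' (S ∪ I, fun i => if i ∈ S then z i else τ i)
    rw [hgS, hg] at h2
    dsimp only at h2
    rw [Finset.card_union_of_disjoint hI.symm, mul_add, pow_add] at h2
    have h3 : (LK.filter (fun t => I ⊆ t.1 ∧ ∀ i ∈ I, t.2 i = τ i)).card
        ≤ (T.filter (fun t => S ∪ I ⊆ t.1 ∧
          ∀ i ∈ S ∪ I, t.2 i = (if i ∈ S then z i else τ i))).card := by
      apply Finset.card_le_card
      intro t ht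
      obtain ⟨g1, g2, g3⟩ := Finset.mem_filter.1 ht
      obtain ⟨g4, g5, g6⟩ := hLKm t g1
      refine Finset.mem_filter.2 ⟨g4, Finset.union_subset g5 g2, ?_⟩
      intro i hi
      by_cases hiS : i ∈ S
      · rw [if_pos hiS]; exact g6 i hiS
      · rw [if_neg hiS]
        rcases Finset.mem_union.1 hi with h | h
        · exact absurd h hiS
        · exact g3 i h
    have h4 : (LK.filter (fun t => I ⊆ t.1 ∧ ∀ i ∈ I, t.2 i = τ i)).card * 2 ^ (d * I.card)
        * 2 ^ (d * S.card) ≤ LK.card * 2 ^ (d * S.card) := by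
      refine le_trans ?_ h2
      rw [mul_assoc, mul_comm (2 ^ (d * I.card))]
      exact Nat.mul_le_mul_right _ h3
    exact Nat.le_of_mul_le_mul_right h4 (by positivity)
  have hprob := prob_terms h0 h1 d k c hk hN LK ⟨t0, ht0⟩ S hspread (by
      intro t ht
      rw [hTl t (hLKm t ht).1]
      exact hl) (by
      intro t ht hsub
      have := Finset.card_le_card hsub
      rw [hTl t (hLKm t ht).1] at this
      omega) x hx hx1
  refine ⟨(S, mask S z), LK, fun t ht => (hLKm t ht).1, ⟨t0, ht0⟩, hRS, hSlt, ?_, ?_⟩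
  · intro t ht
    obtain ⟨g1, g2, g3⟩ := hLKm t ht
    exact ⟨g2, mask_eq_iff.2 g3⟩
  · intro U hU hLKU
    apply hU
    · unfold terms
      rw [Finset.mem_filter]
      refine ⟨Finset.mem_univ _, ?_, mask_mask_of_subset (Finset.Subset.refl _) _⟩
      dsimp only
      omega
    · refine le_trans ?_ (hprob.trans hδ)
      unfold pr
      apply ex_mono h0.le h1
      intro F
      by_cases hev : Good k F (S, mask S z) ∧ ∀ t' ∈ U, ¬ Good k F t'
      · rw [if_pos hev, if_pos]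
        intro t ht
        obtain ⟨g1, g2, g3⟩ := hLKm t ht
        have hng := hev.2 t (hLKU ht)
        unfold Good GoodOn at hng
        push Not at hng
        obtain ⟨V, hV1, hV2, hV3⟩ := hng
        have hVS : ¬ V ⊆ S := by
          intro hVS
          have h5 := hev.1 V hVS hV2
          dsimp only at h5
          rw [mask_mask_of_subset hVS] at h5
          have h6 : mask V t.2 = mask V z := mask_eq_iff.2 (fun i hi => g3 i (hVS hi))
          rw [h6, h5] at hV3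
          exact hV3 rfl
        refine ⟨(V, mask V t.2), ?_, by simpa using hV3⟩
        unfold entries
        exact Finset.mem_image.2 ⟨V, Finset.mem_filter.2
          ⟨Finset.mem_powersetCard.2 ⟨hV1, hV2⟩, hVS⟩, rfl⟩
      · rw [if_neg hev]
        split_ifs <;> norm_num

open Classical in
/-- Proper extensions of the term `τ` which are minimal among the extensions of `τ` in the first
family of the chain to contain them. -/
noncomputable def relFirst (U : ℝ → Finset (Term N A)) (τ : Term N A) : Finset (Term N A) :=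
  Finset.univ.filter (fun t => τ.1 ⊆ t.1 ∧ mask τ.1 t.2 = τ.2 ∧ τ.1.card < t.1.card ∧
    ∃ u, t ∈ U u ∧ (∀ s ∈ U u, τ.1 ⊆ s.1 → s.1 ⊆ t.1 → mask s.1 t.2 = s.2 → s.1 = t.1) ∧
      ∀ u', t ∈ U u' → U u ⊆ U u')

lemma mem_relFirst {U : ℝ → Finset (Term N A)} {τ t : Term N A} :
    t ∈ relFirst U τ ↔ τ.1 ⊆ t.1 ∧ mask τ.1 t.2 = τ.2 ∧ τ.1.card < t.1.card ∧
    ∃ u, t ∈ U u ∧ (∀ s ∈ U u, τ.1 ⊆ s.1 → s.1 ⊆ t.1 → mask s.1 t.2 = s.2 → s.1 = t.1) ∧
      ∀ u', t ∈ U u' → U u ⊆ U u' := by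
  classical
  unfold relFirst
  rw [Finset.mem_filter]
  exact ⟨fun h => h.2, fun h => ⟨Finset.mem_univ _, h⟩⟩

lemma relFirst_card_level (h0 : 0 < p) (h1 : p ≤ 1) (d : ℕ) (hd : 1 ≤ d) (hk : 1 ≤ k) (hN : 1 ≤ N)
    (x : ℝ) (hx : x = (p ^ (c - 1).choose (k - 1))⁻¹ / 2 ^ d) (hx1 : x ≤ 1)
    (hδ : Real.exp (-(1 / (4 * ((1 + x) ^ N - 1)))) ≤ δ)
    {U : ℝ → Finset (Term N A)} (hU : ∀ u, ClosedF p δ k c (U u)) (hUt : ∀ u, U u ⊆ terms N A c)
    (hmono : ∀ s t, s ≤ t → U s ⊆ U t) (τ : Term N A) (j : ℕ) :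
    ((relFirst U τ).filter (fun t => t.1.card = τ.1.card + j)).card ≤ 2 ^ (d * j) := by
  classical
  by_contra hcon
  push Not at hcon
  have hmem : ∀ t ∈ (relFirst U τ).filter (fun t => t.1.card = τ.1.card + j),
      τ.1 ⊆ t.1 ∧ mask τ.1 t.2 = τ.2 ∧ τ.1.card < t.1.card ∧
      ∃ u, t ∈ U u ∧ (∀ s ∈ U u, τ.1 ⊆ s.1 → s.1 ⊆ t.1 → mask s.1 t.2 = s.2 → s.1 = t.1) ∧
      ∀ u', t ∈ U u' → U u ⊆ U u' := by
    intro t ht
    exact mem_relFirst.1 (Finset.mem_filter.1 ht).1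
  have hne : ((relFirst U τ).filter (fun t => t.1.card = τ.1.card + j)).Nonempty := by
    rw [← Finset.card_pos]
    exact lt_of_le_of_lt (Nat.zero_le _) hcon
  obtain ⟨t1, ht1⟩ := hne
  have hlc : τ.1.card + j ≤ c := by
    obtain ⟨_, _, _, u, hu, _⟩ := hmem t1 ht1
    rw [← (Finset.mem_filter.1 ht1).2]
    exact (Finset.mem_filter.1 (hUt u hu)).2.1
  obtain ⟨s, LK, g1, g2, g2', g3, g4, g5⟩ := pluckRel (δ := δ) h0 h1 d hd hk hN x hx hx1 hδ
    (τ.1.card + j) hlc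
    ((relFirst U τ).filter (fun t => t.1.card = τ.1.card + j))
    (fun t ht => (Finset.mem_filter.1 ht).2) (by
      intro t ht
      obtain ⟨_, _, _, u, hu, _⟩ := hmem t ht
      exact (Finset.mem_filter.1 (hUt u hu)).2.2) τ.1 τ.2 (by
      intro t ht
      obtain ⟨e1, e2, _⟩ := hmem t ht
      refine ⟨e1, ?_⟩
      intro i hi
      rw [← e2]
      simp [mask, hi]) (by
      have h5 : 2 ^ (d * (τ.1.card + j)) = 2 ^ (d * j) * 2 ^ (d * τ.1.card) := by
        rw [← pow_add]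
        congr 1
        ring
      rw [h5]
      exact Nat.mul_lt_mul_of_pos_right hcon (by positivity))
  have hch : ∀ t ∈ LK, ∃ u, t ∈ U u ∧
      (∀ s ∈ U u, τ.1 ⊆ s.1 → s.1 ⊆ t.1 → mask s.1 t.2 = s.2 → s.1 = t.1) := by
    intro t ht
    obtain ⟨_, _, _, u, hu, hu2, _⟩ := hmem t (g1 ht)
    exact ⟨u, hu, hu2⟩
  choose! f hf hf2 using hch
  obtain ⟨tm, htm, hmax⟩ := Finset.exists_max_image LK (fun t => (U (f t)).card) g2
  have hsub : ∀ t ∈ LK, U (f t) ⊆ U (f tm) := by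
    intro t ht
    rcases le_total (f t) (f tm) with h | h
    · exact hmono _ _ h
    · have h2 := hmono _ _ h
      have h3 := Finset.eq_of_subset_of_card_le h2 (hmax t ht)
      rw [h3]
  have hs := g5 (U (f tm)) (hU _) (fun t ht => hsub t ht (hf t ht))
  obtain ⟨g6, g7⟩ := g4 tm htm
  have h4 := hf2 tm htm s hs g2' g6 g7
  have h5 := (Finset.mem_filter.1 (g1 htm)).2
  rw [← h4] at h5
  omega

/-- A covered assignment whose covering term fits is covered by a relatively first extension. -/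
lemma exists_relFirst {U : ℝ → Finset (Term N A)} (hδ : 0 ≤ δ)
    (hU : ∀ u, ClosedF p δ k c (U u))
    (hmono : ∀ s t, s ≤ t → U s ⊆ U t) {y : Fin N → A} {u : ℝ} {τ t : Term N A}
    (hτ : Cov τ y) (hτU : τ ∉ U u) (ht : t ∈ U u) (htc : Cov t y)
    (hc : (τ.1 ∪ t.1).card ≤ c) :
    ∃ t' ∈ relFirst U τ, Cov t' y ∧ t' ∈ U u := by
  classical
  have hmem : ((τ.1 ∪ t.1, mask (τ.1 ∪ t.1) y) : Term N A) ∈ terms N A c := by
    unfold terms
    rw [Finset.mem_filter]
    exact ⟨Finset.mem_univ _, hc, mask_mask_of_subset (Finset.Subset.refl _) _⟩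
  have hbig : ((τ.1 ∪ t.1, mask (τ.1 ∪ t.1) y) : Term N A) ∈ U u := by
    apply (hU u).up hδ ht hmem Finset.subset_union_right
    dsimp only
    rw [mask_mask_of_subset Finset.subset_union_right]
    exact htc
  have h : ∃ t ∈ U u, Cov t y ∧ τ.1 ⊆ t.1 := ⟨_, hbig, rfl, Finset.subset_union_left⟩
  obtain ⟨S, hS⟩ : ∃ S : Finset (Finset (Term N A)), S = Finset.univ.filter
    (fun W => (∃ v, W = U v) ∧ ∃ t ∈ W, Cov t y ∧ τ.1 ⊆ t.1) := ⟨_, rfl⟩
  have hSne : S.Nonempty := by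
    rw [hS]
    exact ⟨U u, Finset.mem_filter.2 ⟨Finset.mem_univ _, ⟨u, rfl⟩, h⟩⟩
  obtain ⟨W, hW, hmin⟩ := Finset.exists_min_image S (fun W => W.card) hSne
  rw [hS] at hW
  obtain ⟨_, ⟨u0, rfl⟩, hcov⟩ := Finset.mem_filter.1 hW
  have hall : ∀ v, (∃ t ∈ U v, Cov t y ∧ τ.1 ⊆ t.1) → U u0 ⊆ U v := by
    intro v hv
    rcases le_total u0 v with h2 | h2
    · exact hmono _ _ h2
    · have h3 := hmono _ _ h2
      have h4 := hmin (U v) (by
        rw [hS]
        exact Finset.mem_filter.2 ⟨Finset.mem_univ _, ⟨v, rfl⟩, hv⟩)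
      rw [Finset.eq_of_subset_of_card_le h3 h4]
  obtain ⟨t0, ht0, hc0⟩ := hcov
  obtain ⟨t', ht', hmin'⟩ := Finset.exists_min_image ((U u0).filter (fun t => Cov t y ∧ τ.1 ⊆ t.1))
    (fun t => t.1.card) ⟨t0, Finset.mem_filter.2 ⟨ht0, hc0⟩⟩
  obtain ⟨hm1, hm2, hm3⟩ := Finset.mem_filter.1 ht'
  have hmu : t' ∈ U u := hall u h hm1
  refine ⟨t', ?_, hm2, hmu⟩
  have hmt : mask τ.1 t'.2 = τ.2 := by
    have e1 : mask t'.1 y = t'.2 := hm2
    rw [← e1, mask_mask_of_subset hm3]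
    exact hτ
  rw [mem_relFirst]
  refine ⟨hm3, hmt, ?_, u0, hm1, ?_, ?_⟩
  · rcases Nat.lt_or_ge τ.1.card t'.1.card with h5 | h5
    · exact h5
    exfalso
    have h6 := Finset.eq_of_subset_of_card_le hm3 h5
    apply hτU
    have h7 : τ = t' := by
      apply Prod.ext h6
      have e1 : mask t'.1 y = t'.2 := hm2
      have e2 : mask τ.1 y = τ.2 := hτ
      rw [← e1, ← e2, h6]
    rw [h7]
    exact hmu
  · intro s hs h5 h6 h7
    have h8 : Cov s y := hm2.sub h6 h7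
    have h9 := hmin' s (Finset.mem_filter.2 ⟨hs, h8, h5⟩)
    exact Finset.eq_of_subset_of_card_le h6 h9
  · intro u' hu'
    exact hall u' ⟨t', hu', hm2, hm3⟩

/-- Geometric sum with a small ratio. -/
lemma geom_small (x : ℝ) (hx0 : 0 ≤ x) (hx : x ≤ 1 / 2) (m : ℕ) :
    ∑ j ∈ Finset.range m, x ^ (j + 1) ≤ 2 * x := by
  have h1 : ∀ m : ℕ, ∑ j ∈ Finset.range m, x ^ (j + 1) ≤ 2 * x * (1 - (1 / 2) ^ m) := by
    intro m
    induction m with
    | zero => simp
    | succ m ih =>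
      rw [Finset.sum_range_succ]
      have h2 : x ^ (m + 1) ≤ (1 / 2) ^ m * x := by
        rw [pow_succ]
        exact mul_le_mul_of_nonneg_right (pow_le_pow_left₀ hx0 hx m) hx0
      have h3 : 2 * x * (1 - (1 / 2) ^ (m + 1)) = 2 * x * (1 - (1 / 2) ^ m) + (1 / 2) ^ m * x := by
        rw [pow_succ]
        ring
      rw [h3]
      linarith
  refine (h1 m).trans ?_
  have h3 : (0 : ℝ) ≤ (1 / 2) ^ m := by positivity
  nlinarith

end WideApprox

end Pool.Agent.T9h20
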