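import Mathlib
import Pool.Agent.T9h20.W.Approx

/-!
The assignments lost at a gate of large fan-in.
-/

namespace Pool.Agent.T9h20

open Finset

set_option linter.unusedSectionVars false
set_option linter.unusedVariables false

section WideLost

variable {N : ℕ} {A : Type} [Fintype A] [DecidableEq A] [Inhabited A]
variable {p δ : ℝ} {k c : ℕ}

/-- Sum over a union of finite sets. -/
lemma sum_biUnion_le_sum {α β : Type*} [DecidableEq α] [DecidableEq β] (R : Finset α)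
    (g : α → Finset β) (w : β → ℝ) (hw : ∀ b, 0 ≤ w b) :
    ∑ b ∈ R.biUnion g, w b ≤ ∑ a ∈ R, ∑ b ∈ g a, w b := by
  induction R using Finset.induction_on with
  | empty => simp
  | insert a R ha ih =>
    rw [Finset.biUnion_insert, Finset.sum_insert ha]
    have h1 := Finset.sum_union_inter (s₁ := g a) (s₂ := R.biUnion g) (f := w)
    have h2 : 0 ≤ ∑ b ∈ g a ∩ R.biUnion g, w b := Finset.sum_nonneg (fun b _ => hw b)
    linarith

/-- The weight of the relatively first extensions of a term. -/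
lemma relFirst_weight (h0 : 0 < p) (h1 : p ≤ 1) (d : ℕ) (hd : 1 ≤ d) (hk : 1 ≤ k) (hN : 1 ≤ N)
    (x : ℝ) (hx : x = (p ^ (c - 1).choose (k - 1))⁻¹ / 2 ^ d) (hx1 : x ≤ 1)
    (hδ : Real.exp (-(1 / (4 * ((1 + x) ^ N - 1)))) ≤ δ)
    {U : ℝ → Finset (Term N A)} (hU : ∀ u, ClosedF p δ k c (U u)) (hUt : ∀ u, U u ⊆ terms N A c)
    (hmono : ∀ s t, s ≤ t → U s ⊆ U t) (τ : Term N A) (θ : ℝ) (hθ0 : 0 < θ)
    (hθ : 2 ^ d * θ ≤ 1 / 2) :
    ∑ t ∈ relFirst U τ, θ ^ t.1.card ≤ θ ^ τ.1.card * (2 * (2 ^ d * θ)) := by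
  classical
  have hmaps : ∀ t ∈ relFirst U τ, t.1.card - τ.1.card - 1 ∈ Finset.range c := by
    intro t ht
    obtain ⟨_, _, h3, u, hu, _⟩ := mem_relFirst.1 ht
    have := (Finset.mem_filter.1 (hUt u hu)).2.1
    rw [Finset.mem_range]
    omega
  rw [← Finset.sum_fiberwise_of_maps_to hmaps]
  have hterm : ∀ j ∈ Finset.range c,
      ∑ t ∈ (relFirst U τ).filter (fun t => t.1.card - τ.1.card - 1 = j), θ ^ t.1.card
        ≤ θ ^ τ.1.card * (2 ^ d * θ) ^ (j + 1) := by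
    intro j _
    have e1 : ∀ t ∈ (relFirst U τ).filter (fun t => t.1.card - τ.1.card - 1 = j),
        θ ^ t.1.card = θ ^ (τ.1.card + (j + 1)) := by
      intro t ht
      obtain ⟨g1, g2⟩ := Finset.mem_filter.1 ht
      obtain ⟨_, _, h3, _⟩ := mem_relFirst.1 g1
      congr 1
      omega
    rw [Finset.sum_congr rfl e1, Finset.sum_const, nsmul_eq_mul]
    have e2 : ((relFirst U τ).filter (fun t => t.1.card - τ.1.card - 1 = j)).card
        ≤ 2 ^ (d * (j + 1)) := by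
      refine le_trans (Finset.card_le_card ?_)
        (relFirst_card_level h0 h1 d hd hk hN x hx hx1 hδ hU hUt hmono τ (j + 1))
      intro t ht
      obtain ⟨g1, g2⟩ := Finset.mem_filter.1 ht
      obtain ⟨_, _, h3, _⟩ := mem_relFirst.1 g1
      exact Finset.mem_filter.2 ⟨g1, by omega⟩
    have e3 : (((relFirst U τ).filter (fun t => t.1.card - τ.1.card - 1 = j)).card : ℝ)
        ≤ 2 ^ (d * (j + 1)) := by exact_mod_cast e2
    calc _ ≤ (2 : ℝ) ^ (d * (j + 1)) * θ ^ (τ.1.card + (j + 1)) :=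
          mul_le_mul_of_nonneg_right e3 (pow_nonneg hθ0.le _)
      _ = θ ^ τ.1.card * (2 ^ d * θ) ^ (j + 1) := by
          rw [mul_pow, pow_add θ, pow_mul]
          ring
  refine (Finset.sum_le_sum hterm).trans ?_
  rw [← Finset.mul_sum]
  apply mul_le_mul_of_nonneg_left _ (pow_nonneg hθ0.le _)
  exact geom_small (2 ^ d * θ) (by positivity) hθ c

/-- Covering by common terms of many families, outside a small set of assignments. -/
lemma chain_cover (h0 : 0 < p) (h1 : p ≤ 1) (d : ℕ) (hd : 1 ≤ d) (hk : 1 ≤ k) (hN : 1 ≤ N)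
    (x : ℝ) (hx : x = (p ^ (c - 1).choose (k - 1))⁻¹ / 2 ^ d) (hx1 : x ≤ 1)
    (hδ : Real.exp (-(1 / (4 * ((1 + x) ^ N - 1)))) ≤ δ)
    (U : ℕ → ℝ → Finset (Term N A)) (hU : ∀ i u, ClosedF p δ k c (U i u))
    (hUt : ∀ i u, U i u ⊆ terms N A c) (hmono : ∀ i s t, s ≤ t → U i s ⊆ U i t)
    (θ : ℝ) (hθ0 : 0 < θ) (hθ1 : θ ≤ 1) (hθ : 2 ^ d * θ ≤ 1 / 2) (m : ℕ) :
    ∃ (R : Finset (Term N A)) (L : Finset (Fin N → A)),
      (∀ τ ∈ R, τ ∈ terms N A c) ∧
      (∑ τ ∈ R, θ ^ τ.1.card ≤ (1 + 2 * (2 ^ d * θ)) ^ m) ∧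
      ((L.card : ℝ) ≤ m * ((1 + 2 * (2 ^ d * θ)) ^ m * ((θ ^ c)⁻¹ *
        (2 ^ (d * (c + 1)) * (Fintype.card A : ℝ) ^ (N - (c + 1)))))) ∧
      ∀ y, y ∉ L → ∀ u : ℕ → ℝ, (∀ i < m, ∃ t ∈ U i (u i), Cov t y) →
        ∃ τ ∈ R, Cov τ y ∧ ∀ i < m, τ ∈ U i (u i) := by
  classical
  have hδ0 : 0 ≤ δ := (Real.exp_pos _).le.trans hδ
  obtain ⟨X, hX⟩ : ∃ X : ℝ, X = 1 + 2 * (2 ^ d * θ) := ⟨_, rfl⟩
  obtain ⟨Z, hZ⟩ : ∃ Z : ℝ, Z = 2 ^ (d * (c + 1)) * (Fintype.card A : ℝ) ^ (N - (c + 1)) := ⟨_, rfl⟩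
  rw [← hX, ← hZ]
  have hX1 : 1 ≤ X := by
    rw [hX]
    have : 0 ≤ 2 * (2 ^ d * θ) := by positivity
    linarith
  have hZ0 : 0 ≤ Z := by rw [hZ]; positivity
  induction m with
  | zero =>
    refine ⟨{((∅, mask ∅ default) : Term N A)}, ∅, ?_, ?_, ?_, ?_⟩
    · intro τ hτ
      rw [Finset.mem_singleton] at hτ
      rw [hτ]
      unfold terms
      rw [Finset.mem_filter]
      refine ⟨Finset.mem_univ _, by simp, ?_⟩
      exact mask_mask_of_subset (Finset.Subset.refl (∅ : Finset (Fin N))) default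
    · simp
    · simp
    · intro y _ u _
      refine ⟨_, Finset.mem_singleton_self _, ?_, fun i hi => absurd hi (Nat.not_lt_zero _)⟩
      have h2 : mask (∅ : Finset (Fin N)) y = mask ∅ default :=
        mask_eq_iff.2 (fun i hi => absurd hi (Finset.notMem_empty i))
      exact h2
  | succ m ih =>
    obtain ⟨R, L, hR1, hR2, hL, hcov⟩ := ih
    obtain ⟨Lm, hLm⟩ : ∃ Lm : Finset (Fin N → A), Lm = (R ×ˢ firstT (U m)).biUnion (fun q =>
      Finset.univ.filter (fun y => Cov q.1 y ∧ Cov q.2 y ∧ c < (q.1.1 ∪ q.2.1).card)) := ⟨_, rfl⟩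
    have hRcard : (R.card : ℝ) ≤ X ^ m * (θ ^ c)⁻¹ := by
      have e1 : (R.card : ℝ) * θ ^ c ≤ X ^ m := by
        refine le_trans ?_ hR2
        rw [← nsmul_eq_mul, ← Finset.sum_const]
        apply Finset.sum_le_sum
        intro τ hτ
        have h3 := (Finset.mem_filter.1 (hR1 τ hτ)).2.1
        exact pow_le_pow_of_le_one hθ0.le hθ1 h3
      have hc0 : 0 < θ ^ c := pow_pos hθ0 c
      rw [← div_eq_mul_inv, le_div_iff₀ hc0]
      exact e1
    have hLmcard : (Lm.card : ℝ) ≤ X ^ m * ((θ ^ c)⁻¹ * Z) := by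
      have h2 : Lm.card ≤ (R ×ˢ firstT (U m)).card * ((Fintype.card A) ^ (N - (c + 1))) := by
        rw [hLm]
        apply Finset.card_biUnion_le_card_mul
        rintro ⟨t1, t2⟩ _
        dsimp only
        by_cases hc : c < (t1.1 ∪ t2.1).card
        · refine (card_le_of_const _ (t1.1 ∪ t2.1) ?_).trans ?_
          · intro y hy y' hy' i hi
            obtain ⟨_, a1, a2, _⟩ := Finset.mem_filter.1 hy
            obtain ⟨_, b1, b2, _⟩ := Finset.mem_filter.1 hy'
            unfold Cov at a1 a2 b1 b2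
            rcases Finset.mem_union.1 hi with h | h
            · exact mask_eq_iff.1 (a1.trans b1.symm) i h
            · exact mask_eq_iff.1 (a2.trans b2.symm) i h
          · apply Nat.pow_le_pow_right Fintype.card_pos
            omega
        · have he : Finset.univ.filter (fun y => Cov t1 y ∧ Cov t2 y ∧ c < (t1.1 ∪ t2.1).card)
              = (∅ : Finset (Fin N → A)) := by
            apply Finset.filter_false_of_mem
            rintro y _ ⟨_, _, h⟩
            exact hc h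
          rw [he]
          simp
      have h3 := firstT_card h0 h1 d hd hk hN x hx hx1 hδ (hU m) (hUt m) (hmono m)
      rw [Finset.card_product] at h2
      have h4 : (Lm.card : ℝ) ≤ (R.card : ℝ) * ((firstT (U m)).card : ℝ)
          * (Fintype.card A : ℝ) ^ (N - (c + 1)) := by exact_mod_cast h2
      have h5 : ((firstT (U m)).card : ℝ) ≤ 2 ^ (d * (c + 1)) := by exact_mod_cast h3
      calc (Lm.card : ℝ) ≤ (R.card : ℝ) * ((firstT (U m)).card : ℝ)
          * (Fintype.card A : ℝ) ^ (N - (c + 1)) := h4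
        _ ≤ (X ^ m * (θ ^ c)⁻¹) * 2 ^ (d * (c + 1))
          * (Fintype.card A : ℝ) ^ (N - (c + 1)) := by
            apply mul_le_mul_of_nonneg_right _ (by positivity)
            apply mul_le_mul hRcard h5 (Nat.cast_nonneg _)
            have hc0 : 0 < θ ^ c := pow_pos hθ0 c
            positivity
        _ = _ := by rw [hZ]; ring
    refine ⟨R ∪ R.biUnion (fun τ => relFirst (U m) τ), L ∪ Lm, ?_, ?_, ?_, ?_⟩
    · intro τ hτ
      rcases Finset.mem_union.1 hτ with h | h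
      · exact hR1 τ h
      · obtain ⟨σ, _, hσ⟩ := Finset.mem_biUnion.1 h
        obtain ⟨_, _, _, u, hu, _⟩ := mem_relFirst.1 hσ
        exact hUt m u hu
    · have e1 : ∑ τ ∈ R ∪ R.biUnion (fun τ => relFirst (U m) τ), θ ^ τ.1.card
          ≤ ∑ τ ∈ R, θ ^ τ.1.card + ∑ τ ∈ R.biUnion (fun τ => relFirst (U m) τ), θ ^ τ.1.card := by
        rw [← Finset.sum_union_inter]
        have : 0 ≤ ∑ τ ∈ R ∩ R.biUnion (fun τ => relFirst (U m) τ), θ ^ τ.1.card :=
          Finset.sum_nonneg (fun _ _ => pow_nonneg hθ0.le _)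
        linarith
      have e2 : ∑ τ ∈ R.biUnion (fun τ => relFirst (U m) τ), θ ^ τ.1.card
          ≤ ∑ σ ∈ R, ∑ τ ∈ relFirst (U m) σ, θ ^ τ.1.card :=
        sum_biUnion_le_sum R (fun τ => relFirst (U m) τ) (fun τ => θ ^ τ.1.card)
          (fun _ => pow_nonneg hθ0.le _)
      have e3 : ∑ σ ∈ R, ∑ τ ∈ relFirst (U m) σ, θ ^ τ.1.card
          ≤ ∑ σ ∈ R, θ ^ σ.1.card * (2 * (2 ^ d * θ)) := by
        apply Finset.sum_le_sum
        intro σ _
        exact relFirst_weight h0 h1 d hd hk hN x hx hx1 hδ (hU m) (hUt m) (hmono m) σ θ hθ0 hθ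
      rw [← Finset.sum_mul] at e3
      have e4 : ∑ τ ∈ R, θ ^ τ.1.card + (∑ σ ∈ R, θ ^ σ.1.card) * (2 * (2 ^ d * θ))
          = (∑ σ ∈ R, θ ^ σ.1.card) * X := by rw [hX]; ring
      calc _ ≤ (∑ σ ∈ R, θ ^ σ.1.card) * X := by linarith
        _ ≤ X ^ m * X := mul_le_mul_of_nonneg_right hR2 (by linarith)
        _ = X ^ (m + 1) := by ring
    · have e1 : ((L ∪ Lm).card : ℝ) ≤ L.card + Lm.card := by
        exact_mod_cast Finset.card_union_le L Lm
      have hc0 : 0 < θ ^ c := pow_pos hθ0 c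
      have e2 : X ^ m * ((θ ^ c)⁻¹ * Z) ≤ X ^ (m + 1) * ((θ ^ c)⁻¹ * Z) := by
        apply mul_le_mul_of_nonneg_right _ (by positivity)
        exact pow_le_pow_right₀ hX1 (Nat.le_succ m)
      have e3 : (m : ℝ) * (X ^ m * ((θ ^ c)⁻¹ * Z)) ≤ m * (X ^ (m + 1) * ((θ ^ c)⁻¹ * Z)) :=
        mul_le_mul_of_nonneg_left e2 (Nat.cast_nonneg _)
      push_cast
      linarith
    · intro y hy u hex
      rw [Finset.mem_union] at hy
      push Not at hy
      obtain ⟨τ, hτR, hτc, hτU⟩ := hcov y hy.1 u (fun i hi => hex i (by omega))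
      by_cases hin : τ ∈ U m (u m)
      · refine ⟨τ, Finset.mem_union_left _ hτR, hτc, ?_⟩
        intro i hi
        rcases Nat.lt_succ_iff_lt_or_eq.1 hi with h | rfl
        · exact hτU i h
        · exact hin
      · obtain ⟨t, ht, htc, u0, hu0, hsub⟩ := exists_firstT (hmono m) (hex m (by omega))
        have hsize : (τ.1 ∪ t.1).card ≤ c := by
          by_contra hgt
          push Not at hgt
          apply hy.2
          rw [hLm, Finset.mem_biUnion]
          exact ⟨(τ, t), Finset.mem_product.2 ⟨hτR, ht⟩, Finset.mem_filter.2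
            ⟨Finset.mem_univ _, hτc, htc, hgt⟩⟩
        obtain ⟨t', ht', htc', htu⟩ := exists_relFirst hδ0 (hU m) (hmono m) hτc hin (hsub hu0) htc
          hsize
        refine ⟨t', Finset.mem_union_right _ (Finset.mem_biUnion.2 ⟨τ, hτR, ht'⟩), htc', ?_⟩
        intro i hi
        rcases Nat.lt_succ_iff_lt_or_eq.1 hi with h | rfl
        · obtain ⟨g1, g2, _⟩ := mem_relFirst.1 ht'
          exact (hU i (u i)).up hδ0 (hτU i h) (hUt m _ htu) g1 g2
        · exact htu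

/-- The assignments lost at a gate of fan-in at most `f`. -/
lemma exists_lost (h0 : 0 < p) (h1 : p ≤ 1) (d : ℕ) (hd : 1 ≤ d) (hk : 1 ≤ k) (hN : 1 ≤ N)
    (x : ℝ) (hx : x = (p ^ (c - 1).choose (k - 1))⁻¹ / 2 ^ d) (hx1 : x ≤ 1)
    (hδ : Real.exp (-(1 / (4 * ((1 + x) ^ N - 1)))) ≤ δ) (e f : ℕ) (he : 2 * f ≤ 2 ^ e)
    (U : Fin f → ℝ → Finset (Term N A)) (hU : ∀ i u, ClosedF p δ k c (U i u))
    (hUt : ∀ i u, U i u ⊆ terms N A c) (hmono : ∀ i s t, s ≤ t → U i s ⊆ U i t) :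
    ∃ L : Finset (Fin N → A),
      L.card ≤ 2 ^ ((2 * d + e) * (c + 1)) * (Fintype.card A) ^ (N - (c + 1)) ∧
      ∀ y, y ∉ L → ∀ u : Fin f → ℝ, (∀ i, ∃ t ∈ U i (u i), Cov t y) →
        ∃ τ ∈ terms N A c, Cov τ y ∧ ∀ i, τ ∈ U i (u i) := by
  classical
  rcases Nat.eq_zero_or_pos f with hf | hf
  · subst hf
    refine ⟨∅, by simp, ?_⟩
    intro y _ u _
    refine ⟨((∅, mask ∅ default) : Term N A), ?_, ?_, fun i => i.elim0⟩
    · unfold terms
      rw [Finset.mem_filter]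
      refine ⟨Finset.mem_univ _, by simp, ?_⟩
      exact mask_mask_of_subset (Finset.Subset.refl (∅ : Finset (Fin N))) default
    · have h2 : mask (∅ : Finset (Fin N)) y = mask ∅ default :=
        mask_eq_iff.2 (fun i hi => absurd hi (Finset.notMem_empty i))
      exact h2
  obtain ⟨θ, hθ⟩ : ∃ θ : ℝ, θ = ((2 : ℝ) ^ (d + e))⁻¹ := ⟨_, rfl⟩
  have hθ0 : 0 < θ := by rw [hθ]; positivity
  have hθ1 : θ ≤ 1 := by
    rw [hθ]
    exact inv_le_one_of_one_le₀ (one_le_pow₀ (by norm_num))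
  have hdθ : 2 ^ d * θ = ((2 : ℝ) ^ e)⁻¹ := by
    rw [hθ, pow_add, mul_inv, ← mul_assoc, mul_inv_cancel₀ (by positivity), one_mul]
  have hfr : (0 : ℝ) < f := by exact_mod_cast hf
  have her : 2 * (f : ℝ) ≤ 2 ^ e := by exact_mod_cast he
  have hdθ2 : 2 ^ d * θ ≤ 1 / (2 * f) := by
    rw [hdθ, ← one_div]
    exact one_div_le_one_div_of_le (by positivity) her
  have hf1 : (1 : ℝ) ≤ f := by exact_mod_cast hf
  have hdθ3 : 2 ^ d * θ ≤ 1 / 2 := by
    refine hdθ2.trans ?_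
    apply one_div_le_one_div_of_le (by norm_num)
    linarith
  have hX : (1 + 2 * (2 ^ d * θ)) ^ f ≤ 4 := by
    have e1 : 1 + 2 * (2 ^ d * θ) ≤ Real.exp (1 / f) := by
      have e2 := Real.add_one_le_exp (1 / (f : ℝ))
      have e3 : 2 * (1 / (2 * (f : ℝ))) = 1 / f := by field_simp
      linarith
    calc (1 + 2 * (2 ^ d * θ)) ^ f ≤ (Real.exp (1 / f)) ^ f :=
          pow_le_pow_left₀ (by positivity) e1 f
      _ = Real.exp 1 := by
          rw [← Real.exp_nat_mul]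
          congr 1
          field_simp
      _ ≤ 4 := by linarith [Real.exp_one_lt_d9]
  obtain ⟨R, L, g1, g2, g3, g4⟩ := chain_cover h0 h1 d hd hk hN x hx hx1 hδ
    (fun i => if h : i < f then U ⟨i, h⟩ else fun _ => terms N A c) (by
      intro i u
      split_ifs with h
      · exact hU _ u
      · exact fun t ht _ => ht) (by
      intro i u
      split_ifs with h
      · exact hUt _ u
      · exact Finset.Subset.refl _) (by
      intro i s t hst
      split_ifs with h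
      · exact hmono _ s t hst
      · exact Finset.Subset.refl _) θ hθ0 hθ1 hdθ3 f
  refine ⟨L, ?_, ?_⟩
  · have e1 : (f : ℝ) * ((1 + 2 * (2 ^ d * θ)) ^ f * ((θ ^ c)⁻¹ *
        (2 ^ (d * (c + 1)) * (Fintype.card A : ℝ) ^ (N - (c + 1)))))
        ≤ 2 ^ ((2 * d + e) * (c + 1)) * (Fintype.card A : ℝ) ^ (N - (c + 1)) := by
      have e2 : (θ ^ c)⁻¹ = 2 ^ ((d + e) * c) := by
        rw [hθ, inv_pow, inv_inv, pow_mul]
      rw [e2]
      have e3 : (f : ℝ) * 4 ≤ 2 ^ e * 2 ^ d := by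
        have e4 : (2 : ℝ) ≤ 2 ^ d := by
          calc (2 : ℝ) = 2 ^ 1 := by norm_num
            _ ≤ 2 ^ d := pow_le_pow_right₀ (by norm_num) hd
        calc (f : ℝ) * 4 = 2 * f * 2 := by ring
          _ ≤ 2 ^ e * 2 ^ d := mul_le_mul her e4 (by norm_num) (by positivity)
      have e5 : (0 : ℝ) ≤ (2 : ℝ) ^ ((d + e) * c) *
          (2 ^ (d * (c + 1)) * (Fintype.card A : ℝ) ^ (N - (c + 1))) := by positivity
      calc (f : ℝ) * ((1 + 2 * (2 ^ d * θ)) ^ f * ((2 : ℝ) ^ ((d + e) * c) *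
            (2 ^ (d * (c + 1)) * (Fintype.card A : ℝ) ^ (N - (c + 1)))))
          ≤ f * (4 * ((2 : ℝ) ^ ((d + e) * c) *
            (2 ^ (d * (c + 1)) * (Fintype.card A : ℝ) ^ (N - (c + 1))))) := by
            apply mul_le_mul_of_nonneg_left _ hfr.le
            exact mul_le_mul_of_nonneg_right hX e5
        _ = (f * 4) * ((2 : ℝ) ^ ((d + e) * c) *
            (2 ^ (d * (c + 1)) * (Fintype.card A : ℝ) ^ (N - (c + 1)))) := by ring
        _ ≤ (2 ^ e * 2 ^ d) * ((2 : ℝ) ^ ((d + e) * c) *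
            (2 ^ (d * (c + 1)) * (Fintype.card A : ℝ) ^ (N - (c + 1)))) :=
            mul_le_mul_of_nonneg_right e3 e5
        _ = _ := by
            have e6 : (2 : ℝ) ^ ((2 * d + e) * (c + 1))
                = 2 ^ e * 2 ^ d * 2 ^ ((d + e) * c) * 2 ^ (d * (c + 1)) := by
              rw [← pow_add, ← pow_add, ← pow_add]
              congr 1
              ring
            rw [e6]
            ring
    have e7 := g3.trans e1
    exact_mod_cast e7
  · intro y hy u hex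
    obtain ⟨τ, h2, h3, h4⟩ := g4 y hy (fun i => if h : i < f then u ⟨i, h⟩ else 0) (by
      intro i hi
      simp only [dif_pos hi]
      exact hex ⟨i, hi⟩)
    refine ⟨τ, g1 τ h2, h3, ?_⟩
    intro i
    have h5 := h4 i.1 i.2
    simp only [dif_pos i.2] at h5
    exact h5

end WideLost

end Pool.Agent.T9h20
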