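import Mathlib
import Pool.Agent.T9h20.RealCirc
import Pool.Agent.T9h20.W.Lost

/-!
The gate-by-gate approximation of a monotone real circuit with gates of large fan-in.
-/

namespace Pool.Agent.T9h20

open Finset

set_option linter.unusedSectionVars false
set_option linter.unusedVariables false

section WideCirc

variable {N : ℕ} {A : Type} [Fintype A] [DecidableEq A] [Inhabited A]
variable {p δ : ℝ} {k c : ℕ}

open Classical in
/-- The base families of a gate of fan-in `f`. -/
noncomputable def gateBaseF {f : ℕ} (c : ℕ) (op : (Fin f → ℝ) → ℝ)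
    (U : Fin f → ℝ → Finset (Term N A)) (t : ℝ) : Finset (Term N A) :=
  (terms N A c).filter (fun τ => ∃ u : Fin f → ℝ, op u ≤ t ∧ ∀ i, τ ∈ U i (u i))

lemma mem_gateBaseF {f : ℕ} {op : (Fin f → ℝ) → ℝ} {U : Fin f → ℝ → Finset (Term N A)} {t : ℝ}
    {τ : Term N A} :
    τ ∈ gateBaseF c op U t ↔ τ ∈ terms N A c ∧ ∃ u : Fin f → ℝ, op u ≤ t ∧ ∀ i, τ ∈ U i (u i) := by
  classical
  unfold gateBaseF
  rw [Finset.mem_filter]

lemma gateBaseF_mono {f : ℕ} {op : (Fin f → ℝ) → ℝ} {U : Fin f → ℝ → Finset (Term N A)} {s t : ℝ}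
    (h : s ≤ t) : gateBaseF c op U s ⊆ gateBaseF c op U t := by
  intro τ hτ
  obtain ⟨h1, u, h2, h3⟩ := mem_gateBaseF.1 hτ
  exact mem_gateBaseF.2 ⟨h1, u, h2.trans h, h3⟩

lemma gateBaseF_sub {f : ℕ} {op : (Fin f → ℝ) → ℝ} {U : Fin f → ℝ → Finset (Term N A)} {t : ℝ} :
    gateBaseF c op U t ⊆ terms N A c := fun _ hτ => (mem_gateBaseF.1 hτ).1

/-- The probability that the closure of some member of a chain of families introduces a clean
term. -/
lemma chain_err (h0 : 0 ≤ p) (h1 : p ≤ 1) (hδ0 : 0 ≤ δ) (B : ℝ → Finset (Term N A))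
    (hB : ∀ t, B t ⊆ terms N A c) (hmono : ∀ s t, s ≤ t → B s ⊆ B t) :
    pr p (fun F : (Finset (Fin N) × (Fin N → A)) → Bool => ∃ t,
      (∃ τ ∈ clo p δ k c (B t), Good k F τ) ∧ ∀ τ ∈ B t, ¬ Good k F τ)
      ≤ ((terms N A c).card + 1) * ((terms N A c).card * δ) := by
  classical
  have h2 : pr p (fun F : (Finset (Fin N) × (Fin N → A)) → Bool => ∃ t,
      (∃ τ ∈ clo p δ k c (B t), Good k F τ) ∧ ∀ τ ∈ B t, ¬ Good k F τ)
      ≤ pr p (fun F : (Finset (Fin N) × (Fin N → A)) → Bool =>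
        ∃ m ∈ Finset.range ((terms N A c).card + 1), ∃ t, (B t).card = m ∧
          (∃ τ ∈ clo p δ k c (B t), Good k F τ) ∧ ∀ τ ∈ B t, ¬ Good k F τ) := by
    apply pr_mono h0 h1
    rintro F ⟨t, ht1, ht2⟩
    refine ⟨(B t).card, ?_, t, rfl, ht1, ht2⟩
    rw [Finset.mem_range]
    have := Finset.card_le_card (hB t)
    omega
  have h3 := pr_exists_le h0 h1 (Finset.range ((terms N A c).card + 1))
    (fun m => fun F : (Finset (Fin N) × (Fin N → A)) → Bool => ∃ t, (B t).card = m ∧
          (∃ τ ∈ clo p δ k c (B t), Good k F τ) ∧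
          ∀ τ ∈ B t, ¬ Good k F τ) ((terms N A c).card * δ) (by
    intro m _
    by_cases hm : ∃ t, (B t).card = m
    · obtain ⟨t0, ht0⟩ := hm
      refine le_trans ?_ (clo_pr (k := k) h0 h1 hδ0 (hB t0))
      apply pr_mono h0 h1
      rintro F ⟨t, ht, hr⟩
      have heq : B t = B t0 := by
        rcases le_total t t0 with h | h
        · exact Finset.eq_of_subset_of_card_le (hmono _ _ h) (by rw [ht, ht0])
        · exact (Finset.eq_of_subset_of_card_le (hmono _ _ h) (by rw [ht, ht0])).symm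
      rw [heq] at hr
      exact hr
    · rw [pr_eq_zero]
      · positivity
      · rintro F ⟨t, ht, _⟩
        exact hm ⟨t, ht⟩)
  rw [Finset.card_range, Nat.cast_add, Nat.cast_one] at h3
  exact h2.trans h3

/-- Approximation of a real function with a chain of base families. -/
lemma base_rapproxF (h0 : 0 ≤ p) (h1 : p ≤ 1) (hδ0 : 0 ≤ δ) (B : ℝ → Finset (Term N A))
    (hB : ∀ t, B t ⊆ terms N A c) (hmono : ∀ s t, s ≤ t → B s ⊆ B t) (fpos : (Fin N → A) → ℝ)
    (fneg : ((Finset (Fin N) × (Fin N → A)) → Bool) → ℝ)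
    (hpos : ∀ y t, fpos y ≤ t → ∃ τ ∈ B t, Cov τ y)
    (hneg : ∀ F t, (∃ τ ∈ B t, Good k F τ) → fneg F ≤ t) :
    ∃ U G0, pr p G0 ≤ ((terms N A c).card + 1) * ((terms N A c).card * δ) ∧
      RApprox p δ k c fpos fneg U ∅ G0 := by
  refine ⟨fun t => clo p δ k c (B t), fun F => ∃ t,
      (∃ τ ∈ clo p δ k c (B t), Good k F τ) ∧ ∀ τ ∈ B t, ¬ Good k F τ,
      chain_err h0 h1 hδ0 B hB hmono, ?_, ?_, ?_, ?_, ?_⟩
  · intro t
    exact clo_sub _
  · intro t
    exact clo_closed h0 h1 _
  · intro s t hst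
    exact clo_mono (hmono _ _ hst)
  · intro y _ t ht
    obtain ⟨τ, hτ, hc⟩ := hpos y t ht
    exact ⟨τ, subset_clo (hB t) hτ, hc⟩
  · intro F hF t hex
    push Not at hF
    exact hneg F t (hF t hex)

/-- Approximation of a gate of fan-in `f`. -/
lemma gate_rapproxF (h0 : 0 < p) (h1 : p ≤ 1) (d : ℕ) (hd : 1 ≤ d) (hk : 1 ≤ k) (hN : 1 ≤ N)
    (x : ℝ) (hx : x = (p ^ (c - 1).choose (k - 1))⁻¹ / 2 ^ d) (hx1 : x ≤ 1)
    (hδ : Real.exp (-(1 / (4 * ((1 + x) ^ N - 1)))) ≤ δ) (e f : ℕ) (he : 2 * f ≤ 2 ^ e)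
    (op : (Fin f → ℝ) → ℝ) (hop : ∀ u v : Fin f → ℝ, (∀ i, u i ≤ v i) → op u ≤ op v)
    {fp : Fin f → (Fin N → A) → ℝ} {fn : Fin f → ((Finset (Fin N) × (Fin N → A)) → Bool) → ℝ}
    {U : Fin f → ℝ → Finset (Term N A)} {L : Finset (Fin N → A)}
    {G : ((Finset (Fin N) × (Fin N → A)) → Bool) → Prop}
    (hA : ∀ i, RApprox p δ k c (fp i) (fn i) (U i) L G) :
    ∃ U' G0 L0, pr p G0 ≤ ((terms N A c).card + 1) * ((terms N A c).card * δ) ∧
      L0.card ≤ 2 ^ ((2 * d + e) * (c + 1)) * (Fintype.card A) ^ (N - (c + 1)) ∧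
      RApprox p δ k c (fun y => op (fun i => fp i y)) (fun F => op (fun i => fn i F)) U'
        (L ∪ L0) (fun F => G F ∨ G0 F) := by
  classical
  have hδ0 : 0 ≤ δ := (Real.exp_pos _).le.trans hδ
  obtain ⟨L0, hL0, hcov⟩ := exists_lost h0 h1 d hd hk hN x hx hx1 hδ e f he U
    (fun i => (hA i).closed) (fun i => (hA i).sub) (fun i => (hA i).mono)
  refine ⟨fun t => clo p δ k c (gateBaseF c op U t), fun F => ∃ t,
    (∃ τ ∈ clo p δ k c (gateBaseF c op U t), Good k F τ) ∧
      ∀ τ ∈ gateBaseF c op U t, ¬ Good k F τ, L0, ?_, hL0, ?_, ?_, ?_, ?_, ?_⟩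
  · exact chain_err h0.le h1 hδ0 (fun t => gateBaseF c op U t) (fun t => gateBaseF_sub)
      (fun s t hst => gateBaseF_mono hst)
  · intro t
    exact clo_sub _
  · intro t
    exact clo_closed h0.le h1 _
  · intro s t hst
    exact clo_mono (gateBaseF_mono hst)
  · intro y hy t ht
    rw [Finset.mem_union] at hy
    push Not at hy
    obtain ⟨τ, hτ, hc, hτU⟩ := hcov y hy.2 (fun i => fp i y)
      (fun i => (hA i).pos y hy.1 (fp i y) le_rfl)
    exact ⟨τ, subset_clo gateBaseF_sub
      (mem_gateBaseF.2 ⟨hτ, fun i => fp i y, ht, hτU⟩), hc⟩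
  · intro F hF t hex
    push Not at hF
    obtain ⟨hF1, hF3⟩ := hF
    obtain ⟨τ, hτ, hg⟩ := hF3 t hex
    obtain ⟨_, u, huv, hτ1⟩ := mem_gateBaseF.1 hτ
    exact (hop _ _ (fun i => (hA i).neg F hF1 (u i) ⟨τ, hτ1 i, hg⟩)).trans huv

variable {ι : Type}

/-- Approximation of a wire. -/
lemma wire_rapproxF (h0 : 0 ≤ p) (h1 : p ≤ 1) (hδ : 0 ≤ δ) (M : FCircuit ι) (ok : ι → Prop)
    (xpos : (Fin N → A) → (ι → ℝ))
    (xneg : ((Finset (Fin N) × (Fin N → A)) → Bool) → (ι → ℝ))
    (base : ι → ℝ → Finset (Term N A)) (hbase : ∀ i, ok i → ∀ t, base i t ⊆ terms N A c)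
    (hbmono : ∀ i s t, s ≤ t → base i s ⊆ base i t)
    (hpos : ∀ i, ok i → ∀ y t, xpos y i ≤ t → ∃ τ ∈ base i t, Cov τ y)
    (hneg : ∀ i, ok i → ∀ F t, (∃ τ ∈ base i t, Good k F τ) → xneg F i ≤ t)
    (m : ℕ) (U : ℕ → ℝ → Finset (Term N A)) (L : Finset (Fin N → A))
    (G : ((Finset (Fin N) × (Fin N → A)) → Bool) → Prop)
    (hU : ∀ j < m, RApprox p δ k c (fun y => M.val (xpos y) j) (fun F => M.val (xneg F) j)
      (U j) L G) (w : FWire ι) (hw : ∀ i, w = FWire.input i → ok i) :
    ∃ Uw G0, pr p G0 ≤ ((terms N A c).card + 1) * ((terms N A c).card * δ) ∧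
      RApprox p δ k c (fun y => w.eval (xpos y) (fun j => if j < m then M.val (xpos y) j else 0))
        (fun F => w.eval (xneg F) (fun j => if j < m then M.val (xneg F) j else 0))
        Uw L (fun F => G F ∨ G0 F) := by
  classical
  cases w with
  | input i =>
    have hi := hw i rfl
    obtain ⟨Uw, G0, hG0, hA⟩ := base_rapproxF (k := k) (c := c) h0 h1 hδ (base i) (hbase i hi)
      (hbmono i) (fun y => xpos y i) (fun F => xneg F i) (hpos i hi) (hneg i hi)
    exact ⟨Uw, G0, hG0, hA.weaken (Finset.empty_subset _) (fun F hF => Or.inr hF)⟩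
  | gate j =>
    by_cases hj : j < m
    · refine ⟨U j, fun _ => False, ?_, ?_⟩
      · rw [pr_false]
        positivity
      · have h2 := (hU j hj).weaken (Finset.Subset.refl L)
          (G' := fun F => G F ∨ False) (fun F hF => Or.inl hF)
        unfold FWire.eval
        simp only [if_pos hj]
        exact h2
    · obtain ⟨Uw, G0, hG0, hA⟩ := base_rapproxF (k := k) (c := c) h0 h1 hδ
        (fun t : ℝ => if 0 ≤ t then {((∅, mask ∅ default) : Term N A)} else ∅) (by
          intro t s hs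
          split_ifs at hs
          · rw [Finset.mem_singleton] at hs
            rw [hs]
            exact empty_term_mem
          · exact absurd hs (Finset.notMem_empty _)) (by
          intro s t hst
          split_ifs with g1 g2
          · exact Finset.Subset.refl _
          · exact absurd (le_trans g1 hst) g2
          · exact Finset.empty_subset _
          · exact Finset.Subset.refl _)
        (fun _ => 0) (fun _ => 0) (by
          intro y t ht
          rw [if_pos ht]
          exact ⟨_, Finset.mem_singleton_self _, empty_term_cov y⟩) (by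
          intro F t hex
          by_contra hcon
          rw [if_neg hcon] at hex
          obtain ⟨τ, hτ, _⟩ := hex
          exact absurd hτ (Finset.notMem_empty _))
      refine ⟨Uw, G0, hG0, ?_⟩
      have h2 := hA.weaken (L' := L) (G' := fun F => G F ∨ G0 F) (Finset.empty_subset _)
        (fun F hF => Or.inr hF)
      unfold FWire.eval
      simp only [if_neg hj]
      exact h2

/-- Approximation of all gates. -/
lemma gates_rapproxF (h0 : 0 < p) (h1 : p ≤ 1) (d : ℕ) (hd : 1 ≤ d) (hk : 1 ≤ k) (hN : 1 ≤ N)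
    (x : ℝ) (hx : x = (p ^ (c - 1).choose (k - 1))⁻¹ / 2 ^ d) (hx1 : x ≤ 1)
    (hδ : Real.exp (-(1 / (4 * ((1 + x) ^ N - 1)))) ≤ δ) (e f : ℕ) (he : 2 * f ≤ 2 ^ e)
    (M : FCircuit ι) (hf : M.FanInLe f) (ok : ι → Prop) (hok : M.Reads ok)
    (xpos : (Fin N → A) → (ι → ℝ))
    (xneg : ((Finset (Fin N) × (Fin N → A)) → Bool) → (ι → ℝ))
    (base : ι → ℝ → Finset (Term N A)) (hbase : ∀ i, ok i → ∀ t, base i t ⊆ terms N A c)
    (hbmono : ∀ i s t, s ≤ t → base i s ⊆ base i t)
    (hpos : ∀ i, ok i → ∀ y t, xpos y i ≤ t → ∃ τ ∈ base i t, Cov τ y)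
    (hneg : ∀ i, ok i → ∀ F t, (∃ τ ∈ base i t, Good k F τ) → xneg F i ≤ t) (m : ℕ) (hm : m ≤ M.size) :
    ∃ (U : ℕ → ℝ → Finset (Term N A)) (L : Finset (Fin N → A))
      (G : ((Finset (Fin N) × (Fin N → A)) → Bool) → Prop),
      L.card ≤ m * (2 ^ ((2 * d + e) * (c + 1)) * (Fintype.card A) ^ (N - (c + 1))) ∧
      pr p G ≤ m * ((f + 1) * (((terms N A c).card + 1) * ((terms N A c).card * δ))) ∧
      ∀ j < m, RApprox p δ k c (fun y => M.val (xpos y) j) (fun F => M.val (xneg F) j)
        (U j) L G := by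
  classical
  have hδ0 : 0 ≤ δ := (Real.exp_pos _).le.trans hδ
  induction m with
  | zero =>
    refine ⟨fun _ _ => ∅, ∅, fun _ => False, by simp, ?_, ?_⟩
    · rw [pr_false]
      simp
    · intro j hj
      exact absurd hj (Nat.not_lt_zero _)
  | succ m ih =>
    obtain ⟨U, L, G, hL, hG, hU⟩ := ih (by omega)
    have hval : ∀ z : ι → ℝ, M.val z m
        = (M.gate m).op (fun l => ((M.gate m).wire l).eval z
          (fun j => if j < m then M.val z j else 0)) := by
      intro z
      rw [FCircuit.val]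
      congr 1
    have hfm := hf m (by omega)
    have hw : ∀ l : Fin (M.gate m).fanIn, ∃ Uw G0,
      pr p G0 ≤ ((terms N A c).card + 1) * ((terms N A c).card * δ) ∧
      RApprox p δ k c (fun y => ((M.gate m).wire l).eval (xpos y)
          (fun j => if j < m then M.val (xpos y) j else 0))
        (fun F => ((M.gate m).wire l).eval (xneg F) (fun j => if j < m then M.val (xneg F) j else 0))
        Uw L (fun F => G F ∨ G0 F) := fun l => wire_rapproxF h0.le h1 hδ0 M ok xpos xneg base hbase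
          hbmono hpos hneg m U L G hU ((M.gate m).wire l) (fun i hi => hok.1 m (by omega) l i hi)
    choose Uw Gw hGw hAw using hw
    have hAw' : ∀ l, RApprox p δ k c (fun y => ((M.gate m).wire l).eval (xpos y)
          (fun j => if j < m then M.val (xpos y) j else 0))
        (fun F => ((M.gate m).wire l).eval (xneg F) (fun j => if j < m then M.val (xneg F) j else 0))
        (Uw l) L (fun F => G F ∨ ∃ l ∈ (Finset.univ : Finset (Fin (M.gate m).fanIn)), Gw l F) := by
      intro l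
      apply (hAw l).weaken (Finset.Subset.refl L)
      intro F hF
      rcases hF with h | h
      · exact Or.inl h
      · exact Or.inr ⟨l, Finset.mem_univ _, h⟩
    obtain ⟨Um, G0, L0, hG0, hL0, hA⟩ := gate_rapproxF h0 h1 d hd hk hN x hx hx1 hδ e
      (M.gate m).fanIn (le_trans (by omega) he) (M.gate m).op (M.gate m).mono hAw'
    refine ⟨Function.update U m Um, L ∪ L0,
      fun F => (G F ∨ ∃ l ∈ (Finset.univ : Finset (Fin (M.gate m).fanIn)), Gw l F) ∨ G0 F,
      ?_, ?_, ?_⟩
    · refine (Finset.card_union_le _ _).trans ?_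
      rw [add_mul, one_mul]
      exact Nat.add_le_add hL hL0
    · have e2 := pr_or_le h0.le h1
        (fun F => G F ∨ ∃ l ∈ (Finset.univ : Finset (Fin (M.gate m).fanIn)), Gw l F) G0
      have e3 := pr_or_le h0.le h1 G
        (fun F => ∃ l ∈ (Finset.univ : Finset (Fin (M.gate m).fanIn)), Gw l F)
      have e4 := pr_exists_le h0.le h1 (Finset.univ : Finset (Fin (M.gate m).fanIn)) Gw
        (((terms N A c).card + 1) * ((terms N A c).card * δ)) (fun l _ => hGw l)
      rw [Finset.card_univ, Fintype.card_fin] at e4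
      have e5 : (((M.gate m).fanIn : ℕ) : ℝ) * (((terms N A c).card + 1) * ((terms N A c).card * δ))
          ≤ f * (((terms N A c).card + 1) * ((terms N A c).card * δ)) := by
        apply mul_le_mul_of_nonneg_right _ (by positivity)
        exact_mod_cast hfm
      push_cast
      nlinarith
    · intro j hj
      rcases Nat.lt_succ_iff_lt_or_eq.1 hj with h | rfl
      · rw [Function.update_of_ne (Nat.ne_of_lt h)]
        exact (hU j h).weaken Finset.subset_union_left (fun F hF => Or.inl (Or.inl hF))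
      · rw [Function.update_self]
        simp only [hval]
        exact hA

/-- **Approximation theorem, average case.** For all `y` outside a small set, the value of a
small monotone circuit on a random covering system is with noticeable probability not larger than
its value on `xpos y`. -/
theorem core_avg (h0 : 0 < p) (h1 : p ≤ 1) (d : ℕ) (hd : 1 ≤ d) (hk : 1 ≤ k) (hN : 1 ≤ N)
    (x : ℝ) (hx : x = (p ^ (c - 1).choose (k - 1))⁻¹ / 2 ^ d) (hx1 : x ≤ 1)
    (hδ : Real.exp (-(1 / (4 * ((1 + x) ^ N - 1)))) ≤ δ) (e f : ℕ) (he : 2 * f ≤ 2 ^ e)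
    (M : FCircuit ι) (hf : M.FanInLe f) (ok : ι → Prop) (hok : M.Reads ok)
    (xpos : (Fin N → A) → (ι → ℝ))
    (xneg : ((Finset (Fin N) × (Fin N → A)) → Bool) → (ι → ℝ))
    (base : ι → ℝ → Finset (Term N A)) (hbase : ∀ i, ok i → ∀ t, base i t ⊆ terms N A c)
    (hbmono : ∀ i s t, s ≤ t → base i s ⊆ base i t)
    (hpos : ∀ i, ok i → ∀ y t, xpos y i ≤ t → ∃ τ ∈ base i t, Cov τ y)
    (hneg : ∀ i, ok i → ∀ F t, (∃ τ ∈ base i t, Good k F τ) → xneg F i ≤ t) :
    ∃ L : Finset (Fin N → A),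
      L.card ≤ M.size * (2 ^ ((2 * d + e) * (c + 1)) * (Fintype.card A) ^ (N - (c + 1))) ∧
      ∀ y, y ∉ L → p ^ (c.choose k) ≤ pr p (fun F => M.eval (xneg F) ≤ M.eval (xpos y) ∧
          ∀ y : Fin N → A, ∃ V : Finset (Fin N), V.card = k ∧ F (V, mask V y) = true) +
        ((M.size + 1) * ((f + 1) * (((terms N A c).card + 1) * ((terms N A c).card * δ)))
          + (Fintype.card (Fin N → A) : ℝ) * p ^ (N.choose k)) := by
  classical
  have hδ0 : 0 ≤ δ := (Real.exp_pos _).le.trans hδ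
  obtain ⟨U, L, G, hL, hG, hU⟩ := gates_rapproxF h0 h1 d hd hk hN x hx hx1 hδ e f he M hf ok hok xpos
    xneg base hbase hbmono hpos hneg M.size le_rfl
  obtain ⟨Uo, Go, hGo, hA⟩ := wire_rapproxF h0.le h1 hδ0 M ok xpos xneg base hbase hbmono hpos hneg
    M.size U L G hU M.out hok.2
  refine ⟨L, hL, ?_⟩
  intro y hy2
  obtain ⟨t, ht, _⟩ := hA.pos y hy2 (M.eval (xpos y)) le_rfl
  have htc := (Finset.mem_filter.1 (hA.sub _ ht)).2.1
  -- the probability that t is clean
  obtain ⟨ES, hES⟩ : ∃ ES : Finset (Finset (Fin N) × (Fin N → A)),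
    ES = (t.1.powersetCard k).image (fun V => (V, mask V t.2)) := ⟨_, rfl⟩
  have hEScard : ES.card ≤ c.choose k := by
    rw [hES]
    refine Finset.card_image_le.trans ?_
    rw [Finset.card_powersetCard]
    exact Nat.choose_le_choose k htc
  have hgoodp : p ^ (c.choose k) ≤ pr p (fun F => Good k F t) := by
    calc p ^ (c.choose k) ≤ p ^ ES.card := pow_le_pow_of_le_one h0.le h1 hEScard
      _ = pr p (fun F => ∀ e ∈ ES, F e = false) := (pr_ind ES).symm
      _ ≤ _ := by
          apply pr_mono h0.le h1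
          intro F hF V hV hVk
          apply hF
          rw [hES]
          exact Finset.mem_image.2 ⟨V, Finset.mem_powersetCard.2 ⟨hV, hVk⟩, rfl⟩
  have hcover : pr p (fun F : (Finset (Fin N) × (Fin N → A)) → Bool =>
      ∃ y : Fin N → A, ∀ e ∈ allEntries k y, F e = false)
      ≤ (Fintype.card (Fin N → A) : ℝ) * p ^ (N.choose k) := by
    have e1 : pr p (fun F : (Finset (Fin N) × (Fin N → A)) → Bool =>
        ∃ y : Fin N → A, ∀ e ∈ allEntries k y, F e = false)
        ≤ ex p (fun F => ∑ y : Fin N → A, ind (allEntries k y) F) := by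
      unfold pr
      apply ex_mono h0.le h1
      intro F
      by_cases hF : ∃ y : Fin N → A, ∀ e ∈ allEntries k y, F e = false
      · rw [if_pos hF]
        obtain ⟨y, hy⟩ := hF
        have e2 : ind (allEntries k y) F = 1 := by
          unfold ind
          rw [if_pos hy]
        rw [← e2]
        exact Finset.single_le_sum (f := fun y => ind (allEntries k y) F)
          (fun z _ => ind_nonneg _ _) (Finset.mem_univ y)
      · rw [if_neg hF]
        exact Finset.sum_nonneg (fun z _ => ind_nonneg _ _)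
    refine e1.trans (le_of_eq ?_)
    rw [ex_sum]
    simp_rw [ex_ind, allEntries_card]
    rw [Finset.sum_const, nsmul_eq_mul, Finset.card_univ]
  have hbound : pr p (fun F => Good k F t) ≤ pr p (fun F : (Finset (Fin N) × (Fin N → A)) → Bool =>
      (M.eval (xneg F) ≤ M.eval (xpos y) ∧
          ∀ y : Fin N → A, ∃ V : Finset (Fin N), V.card = k ∧ F (V, mask V y) = true) ∨
      ((G F ∨ Go F) ∨ ∃ y : Fin N → A, ∀ e ∈ allEntries k y, F e = false)) := by
    apply pr_mono h0.le h1
    intro F hF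
    by_cases hb : (G F ∨ Go F) ∨ ∃ y : Fin N → A, ∀ e ∈ allEntries k y, F e = false
    · exact Or.inr hb
    left
    push Not at hb
    obtain ⟨hno1, hno2⟩ := hb
    refine ⟨hA.neg F (by push Not; exact hno1) _ ⟨t, ht, hF⟩, ?_⟩
    intro y
    obtain ⟨e, he, hFe⟩ := hno2 y
    unfold allEntries at he
    obtain ⟨V, hV, rfl⟩ := Finset.mem_image.1 he
    exact ⟨V, (Finset.mem_powersetCard.1 hV).2, by simpa using hFe⟩
  have e2 := pr_or_le h0.le h1 (fun F : (Finset (Fin N) × (Fin N → A)) → Bool =>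
      M.eval (xneg F) ≤ M.eval (xpos y) ∧
          ∀ y : Fin N → A, ∃ V : Finset (Fin N), V.card = k ∧ F (V, mask V y) = true)
    (fun F : (Finset (Fin N) × (Fin N → A)) → Bool =>
      (G F ∨ Go F) ∨ ∃ y : Fin N → A, ∀ e ∈ allEntries k y, F e = false)
  have e3 := pr_or_le h0.le h1 (fun F => G F ∨ Go F)
    (fun F : (Finset (Fin N) × (Fin N → A)) → Bool =>
      ∃ y : Fin N → A, ∀ e ∈ allEntries k y, F e = false)
  have e4 := pr_or_le h0.le h1 G Go
  have e5 : (M.size : ℝ) * ((f + 1) * (((terms N A c).card + 1) * ((terms N A c).card * δ)))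
        + ((terms N A c).card + 1) * ((terms N A c).card * δ)
      ≤ (M.size + 1) * ((f + 1) * (((terms N A c).card + 1) * ((terms N A c).card * δ))) := by
    have g1 : 0 ≤ ((terms N A c).card + 1 : ℝ) * ((terms N A c).card * δ) := by positivity
    have g4 : (0 : ℝ) ≤ f := Nat.cast_nonneg _
    have g5 : 0 ≤ (f : ℝ) * (((terms N A c).card + 1 : ℝ) * ((terms N A c).card * δ)) :=
      mul_nonneg g4 g1
    linarith
  linarith

end WideCirc

end Pool.Agent.T9h20
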