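import Mathlib
import Pool.Agent.T9h20.RealParams
import Pool.Agent.T9h20.W.Circ

/-!
Parameters for the theorem on monotone circuits with gates of large fan-in.
-/

namespace Pool.Agent.T9h20

open Finset

set_option linter.unusedSectionVars false
set_option linter.unusedVariables false

lemma exists_k_ge (a m : ℕ) (ha : 1 ≤ a) :
    ∃ k : ℕ, m ≤ k ∧ 1 ≤ k ∧ (8 * a * k : ℝ) * (1 - 1 / (2 * a)) ^ (k - 1) ≤ 1 := by
  have ha' : (1 : ℝ) ≤ a := by exact_mod_cast ha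
  set r : ℝ := 1 - 1 / (2 * a) with hr
  have h1 : (1 : ℝ) / (2 * a) ≤ 1 / 2 := by
    apply one_div_le_one_div_of_le (by norm_num)
    linarith
  have h2 : (0 : ℝ) < 1 / (2 * a) := by positivity
  have hr0 : 0 < r := by rw [hr]; linarith
  have hr1 : r < 1 := by rw [hr]; linarith
  have ht := tendsto_self_mul_const_pow_of_lt_one hr0.le hr1
  have ht2 : Filter.Tendsto (fun k : ℕ => (8 * a / r) * ((k : ℝ) * r ^ k)) Filter.atTop
      (nhds ((8 * a / r) * 0)) := ht.const_mul _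
  rw [mul_zero] at ht2
  have hev := (ht2.eventually (gt_mem_nhds (by norm_num : (0 : ℝ) < 1))).and
    (Filter.eventually_ge_atTop (m + 1))
  obtain ⟨k, hk1, hk2⟩ := hev.exists
  refine ⟨k, by omega, by omega, ?_⟩
  have hpow : r ^ k = r * r ^ (k - 1) := by
    conv_lhs => rw [show k = (k - 1) + 1 by omega]
    rw [pow_succ]; ring
  rw [hpow] at hk1
  have : (8 * a * k : ℝ) * r ^ (k - 1) = (8 * a / r) * ((k : ℝ) * (r * r ^ (k - 1))) := by
    field_simp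
  rw [this]
  exact hk1.le

/-- The power `(1 - 1 / (2 a)) ^ (4 a r)` is at most `4 ^ (-r)`. -/
lemma ratio_pow (a r : ℕ) (ha : 1 ≤ a) :
    (1 - 1 / (2 * a) : ℝ) ^ (4 * a * r) ≤ (1 / 4) ^ r := by
  have ha' : (1 : ℝ) ≤ a := by exact_mod_cast ha
  have h1 : (1 : ℝ) / (2 * a) ≤ 1 / 2 := by
    apply one_div_le_one_div_of_le (by norm_num)
    linarith
  have hr0 : 0 ≤ (1 - 1 / (2 * a) : ℝ) := by linarith
  rw [pow_mul]
  apply pow_le_pow_left₀ (pow_nonneg hr0 _)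
  have h2 : (1 - 1 / (2 * a) : ℝ) ≤ Real.exp (-(1 / (2 * a))) := by
    have := Real.add_one_le_exp (-(1 / (2 * a)) : ℝ)
    linarith
  calc (1 - 1 / (2 * a) : ℝ) ^ (4 * a) ≤ (Real.exp (-(1 / (2 * a)))) ^ (4 * a) :=
        pow_le_pow_left₀ hr0 h2 _
    _ = Real.exp (-2) := by
        rw [← Real.exp_nat_mul]
        congr 1
        push_cast
        field_simp
        norm_num
    _ ≤ 1 / 4 := by
        have h3 : (2 : ℝ) ≤ Real.exp 1 := by linarith [Real.add_one_le_exp (1 : ℝ)]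
        have h4 : Real.exp 2 = Real.exp 1 * Real.exp 1 := by
          rw [← Real.exp_add]; norm_num
        have h5 : (4 : ℝ) ≤ Real.exp 2 := by rw [h4]; nlinarith
        rw [Real.exp_neg, ← one_div]
        exact one_div_le_one_div_of_le (by norm_num) h5

/-- The arity `k0 + 4 a r` satisfies the first condition. -/
lemma arity_cond (a k0 r : ℕ) (ha : 1 ≤ a) (hk0 : 4 * a ≤ k0)
    (hka : (8 * a * k0 : ℝ) * (1 - 1 / (2 * a)) ^ (k0 - 1) ≤ 1) :
    (8 * a * ((k0 + 4 * a * r : ℕ) : ℝ)) * (1 - 1 / (2 * a)) ^ (k0 + 4 * a * r - 1) ≤ 1 := by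
  have ha' : (1 : ℝ) ≤ a := by exact_mod_cast ha
  have h1 : (1 : ℝ) / (2 * a) ≤ 1 / 2 := by
    apply one_div_le_one_div_of_le (by norm_num)
    linarith
  have hr0 : 0 ≤ (1 - 1 / (2 * a) : ℝ) := by linarith
  have e1 : k0 + 4 * a * r - 1 = (k0 - 1) + 4 * a * r := by
    have : 4 ≤ 4 * a := by omega
    omega
  rw [e1, pow_add]
  have e2 := ratio_pow a r ha
  have e3 : ((k0 + 4 * a * r : ℕ) : ℝ) ≤ k0 * (1 + r) := by
    have : k0 + 4 * a * r ≤ k0 * (1 + r) := by nlinarith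
    exact_mod_cast this
  have e4 : ((1 : ℝ) + r) * (1 / 4) ^ r ≤ 1 := by
    have h2 : (1 : ℝ) + r ≤ 2 ^ r := by
      have := one_add_mul_le_pow (by norm_num : (-2 : ℝ) ≤ 1) r
      norm_num at this
      linarith
    calc ((1 : ℝ) + r) * (1 / 4) ^ r ≤ 2 ^ r * (1 / 4) ^ r :=
          mul_le_mul_of_nonneg_right h2 (by positivity)
      _ = (1 / 2) ^ r := by rw [← mul_pow]; norm_num
      _ ≤ 1 := pow_le_one₀ (by norm_num) (by norm_num)
  have hp0 : 0 ≤ (1 - 1 / (2 * a) : ℝ) ^ (k0 - 1) := pow_nonneg hr0 _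
  have ha0 : (0 : ℝ) ≤ a := by linarith
  have hk00 : (0 : ℝ) ≤ k0 := Nat.cast_nonneg _
  have hr00 : (0 : ℝ) ≤ r := Nat.cast_nonneg _
  calc (8 * a * ((k0 + 4 * a * r : ℕ) : ℝ)) * ((1 - 1 / (2 * a)) ^ (k0 - 1)
        * (1 - 1 / (2 * a)) ^ (4 * a * r))
      ≤ (8 * a * (k0 * (1 + r))) * ((1 - 1 / (2 * a)) ^ (k0 - 1) * (1 / 4) ^ r) := by
        apply mul_le_mul
        · exact mul_le_mul_of_nonneg_left e3 (by positivity)
        · exact mul_le_mul_of_nonneg_left e2 hp0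
        · exact mul_nonneg hp0 (pow_nonneg hr0 _)
        · positivity
    _ = ((8 * a * k0 : ℝ) * (1 - 1 / (2 * a)) ^ (k0 - 1)) * ((1 + r) * (1 / 4) ^ r) := by ring
    _ ≤ 1 * 1 := by
        apply mul_le_mul hka e4 (by positivity) (by norm_num)
    _ = 1 := by norm_num

/-- The proportion of the `k`-sets inside a set of `N - N / a` elements. -/
lemma choose_small (a k0 r N N1 : ℕ) (ha : 2 ≤ a) (hk0 : 4 * a ≤ k0) (hr : 1 ≤ r) (hNa : a ≤ N)
    (hN1 : N1 = N - N / a) :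
    (N1.choose (k0 + 4 * a * r) : ℝ) * 2 ^ (r + 2) ≤ N.choose (k0 + 4 * a * r) := by
  obtain ⟨k, hk⟩ : ∃ k, k = k0 + 4 * a * r := ⟨_, rfl⟩
  rw [← hk]
  have hNpos : 0 < N := by omega
  have hdiv1 : 1 ≤ N / a := (Nat.one_le_div_iff (by omega)).2 hNa
  have hdiv2 : N ≤ 2 * a * (N / a) := by
    have h1 := Nat.div_add_mod N a
    have h2 := Nat.mod_lt N (by omega : a > 0)
    nlinarith
  have hN1N : N1 ≤ N := by omega
  have e2 := choose_ratio N N1 k hN1N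
  have hN0 : (0 : ℝ) < N := by exact_mod_cast hNpos
  have ha2 : (2 : ℝ) ≤ a := by exact_mod_cast ha
  have e2' : (N1.choose k : ℝ) * (N : ℝ) ^ k ≤ (N.choose k : ℝ) * (N1 : ℝ) ^ k := by
    exact_mod_cast e2
  have hratio : (N1 : ℝ) ≤ (1 - 1 / (2 * a)) * N := by
    have h1 : (N1 : ℝ) = N - (N / a : ℕ) := by
      rw [hN1, Nat.cast_sub (Nat.div_le_self N a)]
    have h2 : (N : ℝ) ≤ 2 * a * (N / a : ℕ) := by exact_mod_cast hdiv2
    rw [h1]
    have h3 : (N : ℝ) / (2 * a) ≤ (N / a : ℕ) := by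
      rw [div_le_iff₀ (by positivity)]
      linarith
    have h4 : (1 - 1 / (2 * a)) * (N : ℝ) = N - N / (2 * a) := by
      field_simp
    rw [h4]
    linarith
  have h1 : (1 : ℝ) / (2 * a) ≤ 1 / 2 := by
    apply one_div_le_one_div_of_le (by norm_num)
    linarith
  obtain ⟨ρ, hρ⟩ : ∃ ρ : ℝ, ρ = 1 - 1 / (2 * a) := ⟨_, rfl⟩
  have hρ0 : 0 ≤ ρ := by rw [hρ]; linarith
  have hρ1 : ρ ≤ 1 := by
    rw [hρ]
    have : (0 : ℝ) ≤ 1 / (2 * a) := by positivity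
    linarith
  rw [← hρ] at hratio
  have h5 : (N1.choose k : ℝ) ≤ N.choose k * ρ ^ k := by
    have h6 : (N1 : ℝ) ^ k ≤ ρ ^ k * (N : ℝ) ^ k := by
      rw [← mul_pow]
      exact pow_le_pow_left₀ (Nat.cast_nonneg _) hratio k
    have h7 : (N1.choose k : ℝ) * (N : ℝ) ^ k ≤ (N.choose k * ρ ^ k) * (N : ℝ) ^ k := by
      calc (N1.choose k : ℝ) * (N : ℝ) ^ k ≤ (N.choose k : ℝ) * (N1 : ℝ) ^ k := e2'
        _ ≤ (N.choose k : ℝ) * (ρ ^ k * (N : ℝ) ^ k) :=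
            mul_le_mul_of_nonneg_left h6 (Nat.cast_nonneg _)
        _ = _ := by ring
    exact le_of_mul_le_mul_right h7 (by positivity)
  have h8 : ρ ^ k ≤ 1 / 4 * (1 / 4) ^ r := by
    have g1 := ratio_pow a r (by omega)
    have g2 := ratio_pow a 1 (by omega)
    rw [← hρ] at g1 g2
    rw [mul_one, pow_one] at g2
    rw [hk, pow_add]
    apply mul_le_mul _ g1 (pow_nonneg hρ0 _) (by norm_num)
    exact (pow_le_pow_of_le_one hρ0 hρ1 hk0).trans g2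
  have h9 : ρ ^ k * 2 ^ (r + 2) ≤ 1 := by
    calc ρ ^ k * 2 ^ (r + 2) ≤ (1 / 4 * (1 / 4) ^ r) * 2 ^ (r + 2) :=
          mul_le_mul_of_nonneg_right h8 (by positivity)
      _ = (1 / 2) ^ r := by
          rw [pow_add]
          have : (1 / 2 : ℝ) ^ r = (1 / 4) ^ r * 2 ^ r := by rw [← mul_pow]; norm_num
          rw [this]
          ring
      _ ≤ 1 := pow_le_one₀ (by norm_num) (by norm_num)
  calc (N1.choose k : ℝ) * 2 ^ (r + 2) ≤ (N.choose k * ρ ^ k) * 2 ^ (r + 2) :=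
        mul_le_mul_of_nonneg_right h5 (by positivity)
    _ = N.choose k * (ρ ^ k * 2 ^ (r + 2)) := by ring
    _ ≤ N.choose k * 1 := mul_le_mul_of_nonneg_left h9 (Nat.cast_nonneg _)
    _ = _ := mul_one _

/-- Comparison of the two powers. -/
lemma gap_bound (n r : ℕ) (hr : 1 ≤ r) (hrn : 4 * r ≤ n) :
    (2 : ℝ) ^ (-(n : ℝ) / 2 ^ r) + 5 / 4 * ((2 : ℝ) ^ n)⁻¹ ≤ (2 : ℝ) ^ (-((n : ℝ) / 2 ^ r) / 2) := by
  obtain ⟨u, hu⟩ : ∃ u : ℝ, u = (n : ℝ) / 2 ^ r := ⟨_, rfl⟩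
  have e0 : -(n : ℝ) / 2 ^ r = -u := by rw [hu]; ring
  rw [e0, ← hu]
  have hn4 : (4 : ℝ) ≤ n := by
    have : 4 ≤ n := by omega
    exact_mod_cast this
  have hu1 : u ≤ n / 2 := by
    rw [hu]
    apply div_le_div_of_nonneg_left (by linarith) (by norm_num)
    calc (2 : ℝ) = 2 ^ 1 := by norm_num
      _ ≤ 2 ^ r := pow_le_pow_right₀ (by norm_num) hr
  have hu2 : 4 * (2 : ℝ) ^ (-(n : ℝ) / 4) ≤ u := by
    rw [hu, le_div_iff₀ (by positivity)]
    have e1 : (2 : ℝ) ^ r ≤ (2 : ℝ) ^ ((n : ℝ) / 4) := by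
      rw [← Real.rpow_natCast]
      apply Real.rpow_le_rpow_of_exponent_le (by norm_num)
      have : ((4 * r : ℕ) : ℝ) ≤ n := by exact_mod_cast hrn
      push_cast at this
      linarith
    calc 4 * (2 : ℝ) ^ (-(n : ℝ) / 4) * 2 ^ r
        ≤ 4 * (2 : ℝ) ^ (-(n : ℝ) / 4) * (2 : ℝ) ^ ((n : ℝ) / 4) :=
          mul_le_mul_of_nonneg_left e1 (by positivity)
      _ = 4 := by
          rw [mul_assoc, ← Real.rpow_add (by norm_num)]
          have : -(n : ℝ) / 4 + n / 4 = 0 := by ring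
          rw [this, Real.rpow_zero, mul_one]
      _ ≤ n := hn4
  have hu0 : 0 < u := lt_of_lt_of_le (by positivity) hu2
  -- 2 ^ (-u/2) - 2 ^ (-u) ≥ 2 ^ (-u) * u / 4
  have h1 : (2 : ℝ) ^ (-u / 2) = (2 : ℝ) ^ (-u) * (2 : ℝ) ^ (u / 2) := by
    rw [← Real.rpow_add (by norm_num)]
    congr 1
    ring
  have h2 : 1 + u / 4 ≤ (2 : ℝ) ^ (u / 2) := by
    have e1 : (2 : ℝ) ^ (u / 2) = Real.exp (Real.log 2 * (u / 2)) :=
      Real.rpow_def_of_pos (by norm_num) _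
    rw [e1]
    have e2 := Real.add_one_le_exp (Real.log 2 * (u / 2))
    have e3 := Real.log_two_gt_d9
    nlinarith
  have h3 : (2 : ℝ) ^ (-(n : ℝ) / 2) ≤ (2 : ℝ) ^ (-u) := by
    apply Real.rpow_le_rpow_of_exponent_le (by norm_num)
    linarith
  have h4 : 5 / 4 * ((2 : ℝ) ^ n)⁻¹ ≤ (2 : ℝ) ^ (-u) * (u / 4) := by
    have e1 : (2 : ℝ) ^ (-(n : ℝ) / 2) * (2 : ℝ) ^ (-(n : ℝ) / 4) ≤ (2 : ℝ) ^ (-u) * (u / 4) := by
      apply mul_le_mul h3 (by linarith) (by positivity) (by positivity)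
    refine le_trans ?_ e1
    have e2 : (2 : ℝ) ^ (-(n : ℝ) / 2) * (2 : ℝ) ^ (-(n : ℝ) / 4)
        = ((2 : ℝ) ^ n)⁻¹ * (2 : ℝ) ^ ((n : ℝ) / 4) := by
      rw [← Real.rpow_natCast, ← Real.rpow_neg (by norm_num), ← Real.rpow_add (by norm_num),
        ← Real.rpow_add (by norm_num)]
      congr 1
      ring
    rw [e2, mul_comm]
    apply mul_le_mul_of_nonneg_left _ (by positivity)
    calc (5 / 4 : ℝ) ≤ 2 ^ (1 : ℝ) := by norm_num
      _ ≤ (2 : ℝ) ^ ((n : ℝ) / 4) := by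
          apply Real.rpow_le_rpow_of_exponent_le (by norm_num)
          linarith
  rw [h1]
  have h5 : 0 < (2 : ℝ) ^ (-u) := by positivity
  nlinarith

/-- Parameters for the average-case approximation theorem. -/
theorem wide_params (a k n d' d b N N1 W r : ℕ) (ha : 2 ≤ a) (hk : 1 ≤ k)
    (hka : (8 * a * k : ℝ) * (1 - 1 / (2 * a)) ^ (k - 1) ≤ 1)
    (hW : W = n + 4) (hd' : 128 * W ^ 4 ≤ 2 ^ d') (hd : d = 2 * d') (hb : b = a * d)
    (hNb : N * b ≤ n) (hNb2 : n ≤ 2 * N * b) (hNa : a ≤ N) (hNk : k ≤ N)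
    (hN1 : N1 = N - N / a) (hr : 1 ≤ r) (hrn : 4 * r ≤ n)
    (hrat : (N1.choose k : ℝ) * 2 ^ (r + 2) ≤ N.choose k) :
    ∃ p x : ℝ, 0 < p ∧ p ≤ 1 ∧ x = (p ^ (N1 - 1).choose (k - 1))⁻¹ / 2 ^ d ∧ x ≤ 1 ∧
      ∀ s f : ℕ, s < 2 ^ n → 2 * f ≤ 2 ^ n →
        (2 : ℝ) ^ (-(n : ℝ) / 2 ^ r) + ((s + 1) * ((f + 1) * (((terms N (Fin b → Bool) N1).card + 1)
          * ((terms N (Fin b → Bool) N1).card * Real.exp (-(1 / (4 * ((1 + x) ^ N - 1)))))))
          + (Fintype.card (Fin N → (Fin b → Bool)) : ℝ) * p ^ (N.choose k))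
          ≤ p ^ (N1.choose k) := by
  have hn : 1 ≤ n := by omega
  have hM : 1 ≤ N.choose k := Nat.choose_pos hNk
  have hM0 : (0 : ℝ) < N.choose k := by exact_mod_cast hM
  have hNpos : 1 ≤ N := by omega
  obtain ⟨p, hp⟩ : ∃ p : ℝ, p = (2 : ℝ) ^ (-(2 * n : ℝ) / (N.choose k : ℝ)) := ⟨_, rfl⟩
  have hp0 : 0 < p := by rw [hp]; exact Real.rpow_pos_of_pos (by norm_num) _
  have hp1 : p ≤ 1 := by
    rw [hp]
    apply Real.rpow_le_one_of_one_le_of_nonpos (by norm_num)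
    apply div_nonpos_of_nonpos_of_nonneg _ hM0.le
    have : (0 : ℝ) ≤ n := Nat.cast_nonneg _
    linarith
  have hpM : p ^ (N.choose k) = ((2 : ℝ) ^ (2 * n))⁻¹ := by
    rw [hp, ← Real.rpow_natCast, ← Real.rpow_mul (by norm_num), div_mul_cancel₀ _ hM0.ne',
      Real.rpow_neg (by norm_num)]
    congr 1
    rw [← Real.rpow_natCast]
    congr 1
    push_cast
    ring
  obtain ⟨K, hK⟩ : ∃ K, K = (N1 - 1).choose (k - 1) := ⟨_, rfl⟩
  have hKM := K_over_M a k N N1 ha hk hNa hNk hN1 hka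
  rw [← hK] at hKM
  have hpK : (p ^ K)⁻¹ ≤ 2 ^ d' := by
    have h1 : (p ^ K)⁻¹ = (2 : ℝ) ^ ((2 * n * K : ℝ) / (N.choose k : ℝ)) := by
      rw [hp, ← Real.rpow_natCast, ← Real.rpow_mul (by norm_num), ← Real.rpow_neg (by norm_num)]
      congr 1
      ring
    rw [h1, ← Real.rpow_natCast]
    apply Real.rpow_le_rpow_of_exponent_le (by norm_num)
    rw [div_le_iff₀ hM0]
    have h2 : (n : ℝ) ≤ 2 * N * (a * (2 * d')) := by
      have : n ≤ 2 * N * (a * (2 * d')) := by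
        rw [hb, hd] at hNb2
        exact hNb2
      exact_mod_cast this
    have hK0 : (0 : ℝ) ≤ K := Nat.cast_nonneg _
    have hd0 : (0 : ℝ) ≤ d' := Nat.cast_nonneg _
    calc (2 * n * K : ℝ) ≤ 2 * (2 * N * (a * (2 * d'))) * K := by
          apply mul_le_mul_of_nonneg_right _ hK0
          linarith
      _ = d' * ((8 * a * N : ℝ) * K) := by ring
      _ ≤ d' * N.choose k := mul_le_mul_of_nonneg_left hKM hd0
  obtain ⟨x, hx⟩ : ∃ x : ℝ, x = (p ^ K)⁻¹ / 2 ^ d := ⟨_, rfl⟩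
  have hx0 : 0 < x := by rw [hx]; positivity
  have hxle : x ≤ 1 / 2 ^ d' := by
    rw [hx, div_le_div_iff₀ (by positivity) (by positivity)]
    calc (p ^ K)⁻¹ * 2 ^ d' ≤ 2 ^ d' * 2 ^ d' := mul_le_mul_of_nonneg_right hpK (by positivity)
      _ = 1 * 2 ^ d := by rw [hd, ← pow_add]; ring_nf
  have hW4 : 4 ≤ W := by omega
  have h2d' : (128 : ℝ) * W ^ 4 ≤ 2 ^ d' := by exact_mod_cast hd'
  have hbpos : 1 ≤ b := by
    by_contra hcon
    have : b = 0 := by omega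
    rw [this] at hNb2
    omega
  have hNn : N ≤ n := by nlinarith
  have hNW : (N : ℝ) ≤ W := by
    have : N ≤ W := by omega
    exact_mod_cast this
  have hN0 : (1 : ℝ) ≤ N := by exact_mod_cast hNpos
  have hWr : (4 : ℝ) ≤ W := by exact_mod_cast hW4
  have hNx : N * x ≤ 1 / 2 := by
    calc (N : ℝ) * x ≤ N * (1 / 2 ^ d') := mul_le_mul_of_nonneg_left hxle (by linarith)
      _ ≤ W * (1 / (128 * W ^ 4)) := by
          apply mul_le_mul hNW _ (by positivity) (by linarith)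
          exact one_div_le_one_div_of_le (by positivity) h2d'
      _ ≤ 1 / 2 := by
          rw [mul_one_div, div_le_div_iff₀ (by positivity) (by norm_num)]
          nlinarith [pow_le_pow_left₀ (by norm_num : (0:ℝ) ≤ 4) hWr 3]
  have hx1 : x ≤ 1 := by nlinarith
  have hη : (1 + x) ^ N - 1 ≤ 2 * N / 2 ^ d' := by
    have h1 : (1 + x) ^ N ≤ Real.exp (N * x) := by
      have h2 : 1 + x ≤ Real.exp x := by linarith [Real.add_one_le_exp x]
      calc (1 + x) ^ N ≤ (Real.exp x) ^ N := pow_le_pow_left₀ (by linarith) h2 N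
        _ = Real.exp (N * x) := by rw [← Real.exp_nat_mul]
    have h3 : Real.exp (N * x) ≤ 1 + 2 * (N * x) := by
      have h4 : 1 - N * x ≤ Real.exp (-(N * x)) := by
        have := Real.add_one_le_exp (-(N * x))
        linarith
      have h5 : 0 < 1 - N * x := by linarith
      have h6 : Real.exp (N * x) ≤ 1 / (1 - N * x) := by
        rw [Real.exp_neg] at h4
        rw [le_div_iff₀ h5]
        have h7 := Real.exp_pos (N * x)
        calc Real.exp (N * x) * (1 - N * x) ≤ Real.exp (N * x) * (Real.exp (N * x))⁻¹ :=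
              mul_le_mul_of_nonneg_left h4 h7.le
          _ = 1 := mul_inv_cancel₀ h7.ne'
      refine h6.trans ?_
      rw [div_le_iff₀ h5]
      have h8 : 0 ≤ N * x := by positivity
      nlinarith
    have h9 : 2 * (N * x) ≤ 2 * N / 2 ^ d' := by
      calc 2 * (N * x) ≤ 2 * (N * (1 / 2 ^ d')) := by
            apply mul_le_mul_of_nonneg_left _ (by norm_num)
            exact mul_le_mul_of_nonneg_left hxle (by linarith)
        _ = _ := by ring
    linarith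
  have hηpos : 0 < (1 + x) ^ N - 1 := by
    have h1 := one_add_mul_le_pow (by linarith : (-2 : ℝ) ≤ x) N
    have : 0 < N * x := by positivity
    linarith
  have hexp : 16 * (W : ℝ) ≤ 1 / (4 * ((1 + x) ^ N - 1)) := by
    rw [le_div_iff₀ (by positivity)]
    calc 16 * (W : ℝ) * (4 * ((1 + x) ^ N - 1))
        ≤ 16 * (W : ℝ) * (4 * (2 * N / 2 ^ d')) := by
          apply mul_le_mul_of_nonneg_left _ (by positivity)
          linarith
      _ ≤ 16 * (W : ℝ) * (4 * (2 * W / (128 * W ^ 4))) := by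
          apply mul_le_mul_of_nonneg_left _ (by positivity)
          apply mul_le_mul_of_nonneg_left _ (by norm_num)
          apply div_le_div₀ (by positivity) (by linarith) (by positivity) h2d'
      _ = 1 / (W ^ 2) := by
          field_simp
          ring
      _ ≤ 1 := by
          rw [div_le_one (by positivity)]
          nlinarith
  have hδ : Real.exp (-(1 / (4 * ((1 + x) ^ N - 1)))) ≤ ((2 : ℝ) ^ (16 * W))⁻¹ := by
    have h1 : Real.exp (-(1 / (4 * ((1 + x) ^ N - 1)))) ≤ Real.exp (-(16 * (W : ℝ))) :=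
      Real.exp_le_exp.2 (neg_le_neg hexp)
    have h2 : (2 : ℝ) ^ (16 * W) ≤ Real.exp (16 * (W : ℝ)) := by
      have h3 : (2 : ℝ) ≤ Real.exp 1 := by linarith [Real.add_one_le_exp (1 : ℝ)]
      calc (2 : ℝ) ^ (16 * W) ≤ (Real.exp 1) ^ (16 * W) :=
            pow_le_pow_left₀ (by norm_num) h3 _
        _ = Real.exp (16 * (W : ℝ)) := by
            rw [← Real.exp_nat_mul]
            congr 1
            push_cast
            ring
    refine h1.trans ?_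
    rw [Real.exp_neg]
    exact inv_anti₀ (by positivity) h2
  refine ⟨p, x, hp0, hp1, by rw [hx, hK], hx1, ?_⟩
  intro s f hs hf
  obtain ⟨R, hR⟩ : ∃ R : ℝ, R = p ^ (N1.choose k) := ⟨_, rfl⟩
  have hRbig : (2 : ℝ) ^ (-(n : ℝ) / 2 ^ r) + 5 / 4 * ((2 : ℝ) ^ n)⁻¹ ≤ R := by
    refine (gap_bound n r hr hrn).trans ?_
    have h0 : R = (2 : ℝ) ^ (-(2 * n : ℝ) / (N.choose k : ℝ) * ((N1.choose k : ℕ) : ℝ)) := by
      rw [hR, hp, Real.rpow_mul (by norm_num), Real.rpow_natCast]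
    rw [h0]
    apply Real.rpow_le_rpow_of_exponent_le (by norm_num)
    have h1 : (N1.choose k : ℝ) / N.choose k ≤ 1 / 2 ^ (r + 2) := by
      rw [div_le_div_iff₀ hM0 (by positivity), one_mul]
      exact hrat
    have h2 : -(2 * n : ℝ) / (N.choose k : ℝ) * ((N1.choose k : ℕ) : ℝ)
        = -(2 * n) * ((N1.choose k : ℝ) / N.choose k) := by ring
    have h3 : (1 : ℝ) / 2 ^ (r + 2) = 1 / 4 * (1 / 2 ^ r) := by
      rw [pow_add]
      field_simp
      norm_num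
    rw [h2]
    have hn0 : (0 : ℝ) ≤ 2 * n := by positivity
    have h4 := mul_le_mul_of_nonneg_left h1 hn0
    rw [h3] at h4
    have h5 : 2 * (n : ℝ) * (1 / 4 * (1 / 2 ^ r)) = ((n : ℝ) / 2 ^ r) / 2 := by
      ring
    rw [h5] at h4
    linarith
  rw [← hR]
  have hT : ((terms N (Fin b → Bool) N1).card : ℝ) ≤ 2 ^ (2 * n) := by
    exact_mod_cast terms_card_le' n N b N1 hNn hNb
  have hcov : (Fintype.card (Fin N → (Fin b → Bool)) : ℝ) * p ^ (N.choose k)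
      ≤ ((2 : ℝ) ^ n)⁻¹ := by
    have hΩ : (Fintype.card (Fin N → (Fin b → Bool)) : ℝ) = 2 ^ (b * N) := by
      rw [Fintype.card_fun, Fintype.card_fun, Fintype.card_bool, Fintype.card_fin,
        Fintype.card_fin, ← pow_mul]
      push_cast
      rfl
    rw [hΩ, hpM]
    have h1 : (2 : ℝ) ^ (b * N) ≤ 2 ^ n :=
      pow_le_pow_right₀ (by norm_num) (by rw [mul_comm]; exact hNb)
    have h2 : (2 : ℝ) ^ (2 * n) = 2 ^ n * 2 ^ n := by rw [two_mul, pow_add]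
    rw [h2]
    calc (2 : ℝ) ^ (b * N) * (2 ^ n * 2 ^ n)⁻¹ ≤ 2 ^ n * (2 ^ n * 2 ^ n)⁻¹ :=
          mul_le_mul_of_nonneg_right h1 (by positivity)
      _ = (2 ^ n)⁻¹ := by
          rw [mul_inv, ← mul_assoc, mul_inv_cancel₀ (by positivity), one_mul]
  have hs' : ((s : ℝ) + 1) ≤ 2 ^ n := by
    have h1 : s + 1 ≤ 2 ^ n := hs
    exact_mod_cast h1
  have hT5 : ((terms N (Fin b → Bool) N1).card : ℝ) + 1 ≤ 2 * 2 ^ (2 * n) := by
    have h1 : (1 : ℝ) ≤ 2 ^ (2 * n) := one_le_pow₀ (by norm_num)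
    linarith
  have hf1 : (f : ℝ) + 1 ≤ 2 * 2 ^ n := by
    have h1 : (1 : ℝ) ≤ 2 ^ n := one_le_pow₀ (by norm_num)
    have h2 : (2 : ℝ) * f ≤ 2 ^ n := by exact_mod_cast hf
    have h3 : (0 : ℝ) ≤ f := Nat.cast_nonneg _
    linarith
  have hfirst : ((s : ℝ) + 1) * ((f + 1) * (((terms N (Fin b → Bool) N1).card + 1)
      * ((terms N (Fin b → Bool) N1).card
        * Real.exp (-(1 / (4 * ((1 + x) ^ N - 1))))))) ≤ 1 / 4 * ((2 : ℝ) ^ n)⁻¹ := by
    have e1 : ((terms N (Fin b → Bool) N1).card : ℝ)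
        * Real.exp (-(1 / (4 * ((1 + x) ^ N - 1)))) ≤ 2 ^ (2 * n) * ((2 : ℝ) ^ (16 * W))⁻¹ :=
      mul_le_mul hT hδ (Real.exp_pos _).le (by positivity)
    have e1' : (((terms N (Fin b → Bool) N1).card : ℝ) + 1)
        * (((terms N (Fin b → Bool) N1).card : ℝ)
        * Real.exp (-(1 / (4 * ((1 + x) ^ N - 1)))))
        ≤ (2 * 2 ^ (2 * n)) * (2 ^ (2 * n) * ((2 : ℝ) ^ (16 * W))⁻¹) :=
      mul_le_mul hT5 e1 (by positivity) (by positivity)
    have e1'' : ((f : ℝ) + 1) * ((((terms N (Fin b → Bool) N1).card : ℝ) + 1)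
        * (((terms N (Fin b → Bool) N1).card : ℝ)
        * Real.exp (-(1 / (4 * ((1 + x) ^ N - 1))))))
        ≤ (2 * 2 ^ n) * ((2 * 2 ^ (2 * n)) * (2 ^ (2 * n) * ((2 : ℝ) ^ (16 * W))⁻¹)) :=
      mul_le_mul hf1 e1' (by positivity) (by positivity)
    have e2 : ((s : ℝ) + 1) * ((f + 1) * (((terms N (Fin b → Bool) N1).card + 1)
        * ((terms N (Fin b → Bool) N1).card
        * Real.exp (-(1 / (4 * ((1 + x) ^ N - 1)))))))
        ≤ 2 ^ n * ((2 * 2 ^ n) * ((2 * 2 ^ (2 * n)) * (2 ^ (2 * n) * ((2 : ℝ) ^ (16 * W))⁻¹))) :=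
      mul_le_mul hs' e1'' (by positivity) (by positivity)
    refine e2.trans ?_
    have e3 : (2 : ℝ) ^ (16 * W)
        = 2 ^ n * 2 ^ n * 2 ^ (2 * n) * 2 ^ (2 * n) * 2 ^ n * 2 ^ (9 * n + 64) := by
      rw [hW, ← pow_add, ← pow_add, ← pow_add, ← pow_add, ← pow_add]
      congr 1
      ring
    rw [e3]
    have h2n : (0 : ℝ) < 2 ^ n := by positivity
    have h22n : (0 : ℝ) < 2 ^ (2 * n) := by positivity
    have e4 : (2 : ℝ) ^ n * ((2 * 2 ^ n) * ((2 * 2 ^ (2 * n)) * (2 ^ (2 * n) *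
        (2 ^ n * 2 ^ n * 2 ^ (2 * n) * 2 ^ (2 * n) * 2 ^ n * 2 ^ (9 * n + 64))⁻¹)))
        = (4 * ((2 : ℝ) ^ (9 * n + 64))⁻¹) * ((2 : ℝ) ^ n)⁻¹ := by
      field_simp
      norm_num
    rw [e4]
    apply mul_le_mul_of_nonneg_right _ (by positivity)
    have e5 : ((2 : ℝ) ^ (9 * n + 64))⁻¹ ≤ ((2 : ℝ) ^ 64)⁻¹ := by
      apply inv_anti₀ (by positivity)
      exact pow_le_pow_right₀ (by norm_num) (by omega)
    calc 4 * ((2 : ℝ) ^ (9 * n + 64))⁻¹ ≤ 4 * ((2 : ℝ) ^ 64)⁻¹ :=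
          mul_le_mul_of_nonneg_left e5 (by norm_num)
      _ ≤ 1 / 4 := by norm_num
  linarith

end Pool.Agent.T9h20
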