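import Mathlib
import Pool.Agent.T9h20.RealMain
import Pool.Agent.T9h20.W.Params

/-!
Exhaustive search is optimal on average for monotone circuits with gates of large fan-in.
-/

namespace Pool.Agent.T9h20

open Finset

set_option linter.unusedSectionVars false
set_option linter.unusedVariables false

section Prob

variable {n : ℕ}

lemma prob_add_compl (μ : CNF n → ℝ) (P : CNF n → Prop) :
    prob μ P + prob μ (fun φ => ¬ P φ) = ∑ φ : CNF n, μ φ := by
  classical
  unfold prob
  rw [← Finset.sum_add_distrib]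
  apply Finset.sum_congr rfl
  intro φ _
  by_cases h : P φ
  · rw [if_pos h, if_neg (not_not.2 h), add_zero]
  · rw [if_neg h, if_pos h, zero_add]

end Prob

section WideTransfer

variable {n N b : ℕ}

/-- Every block assignment is excluded. -/
def Covers (k : ℕ) (F : (Finset (Fin N) × (Fin N → (Fin b → Bool))) → Bool) : Prop :=
  ∀ y : Fin N → (Fin b → Bool), ∃ V : Finset (Fin N), V.card = k ∧ F (V, mask V y) = true

/-- The distribution of the formula of a random covering system. -/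
noncomputable def law (h : N * b ≤ n) (k : ℕ) (p : ℝ) (φ : CNF n) : ℝ :=
  pr p (fun F => Covers k F ∧ cnfOf h k F = φ) / pr p (fun F => Covers (N := N) (b := b) k F)

lemma prob_law (h : N * b ≤ n) (k : ℕ) (p : ℝ) (P : CNF n → Prop) :
    prob (law h k p) P = pr p (fun F => Covers k F ∧ P (cnfOf h k F))
      / pr p (fun F => Covers (N := N) (b := b) k F) := by
  classical
  unfold prob law
  have e1 : ∀ φ : CNF n, (if P φ then pr p (fun F => Covers k F ∧ cnfOf h k F = φ)
      / pr p (fun F => Covers (N := N) (b := b) k F) else 0)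
      = (if P φ then pr p (fun F => Covers k F ∧ cnfOf h k F = φ) else 0)
      / pr p (fun F => Covers (N := N) (b := b) k F) := by
    intro φ
    split_ifs
    · rfl
    · rw [zero_div]
  rw [Finset.sum_congr rfl (fun φ _ => e1 φ), ← Finset.sum_div]
  congr 1
  have e2 : ∀ φ : CNF n, (if P φ then pr p (fun F => Covers k F ∧ cnfOf h k F = φ) else 0)
      = ex p (fun F => if (Covers k F ∧ cnfOf h k F = φ) ∧ P φ then 1 else 0) := by
    intro φ
    by_cases hP : P φ
    · rw [if_pos hP]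
      unfold pr
      congr 1
      funext F
      simp [hP]
    · rw [if_neg hP]
      simp [hP, ex]
  rw [Finset.sum_congr rfl (fun φ _ => e2 φ), ← ex_sum]
  unfold pr
  congr 1
  funext F
  by_cases hc : Covers k F
  · rw [Finset.sum_eq_single (cnfOf h k F)]
    · simp [hc]
    · intro φ _ hne
      rw [if_neg]
      rintro ⟨⟨_, h2⟩, _⟩
      exact hne h2.symm
    · intro h2
      exact absurd (Finset.mem_univ _) h2
  · rw [if_neg (fun h2 => hc h2.1)]
    apply Finset.sum_eq_zero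
    intro φ _
    rw [if_neg]
    rintro ⟨⟨h2, _⟩, _⟩
    exact hc h2

lemma law_distribution (h : N * b ≤ n) (k : ℕ) (p : ℝ) (h0 : 0 ≤ p) (h1 : p ≤ 1)
    (hpos : 0 < pr p (fun F => Covers (N := N) (b := b) k F)) :
    UnsatDistribution (allowed h k) (law h k p) := by
  classical
  refine ⟨?_, ?_, ?_⟩
  · intro φ
    unfold law
    exact div_nonneg (pr_nonneg h0 h1 _) hpos.le
  · have h2 := prob_law h k p (fun _ => True)
    unfold prob at h2
    simp only [if_true, and_true] at h2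
    rw [h2]
    exact div_self hpos.ne'
  · intro φ hφ
    have hex : ∃ F, Covers (N := N) (b := b) k F ∧ cnfOf h k F = φ := by
      by_contra hno
      push Not at hno
      apply hφ
      unfold law
      rw [pr_eq_zero (fun F hF => hno F hF.1 hF.2), zero_div]
    obtain ⟨F, hF, rfl⟩ := hex
    exact ⟨cnfOf_subset_allowed h k F, cnfOf_unsat h k F hF⟩

/-- The blocks all of whose variables belong to `S`. -/
def fullBlocks (h : N * b ≤ n) (S : Finset (Fin n)) : Finset (Fin N) :=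
  Finset.univ.filter (fun i => ∀ j : Fin b, bitIdx h i j ∈ S)

lemma fullBlocks_card (h : N * b ≤ n) (S : Finset (Fin n)) :
    (fullBlocks h S).card * b ≤ S.card := by
  have h1 : (fullBlocks h S ×ˢ (Finset.univ : Finset (Fin b))).card ≤ S.card := by
    apply Finset.card_le_card_of_injOn (fun q => bitIdx h q.1 q.2)
    · rintro ⟨i, j⟩ hq
      have h2 := (Finset.mem_product.1 (Finset.mem_coe.1 hq)).1
      exact (Finset.mem_filter.1 h2).2 j
    · rintro ⟨i, j⟩ _ ⟨i', j'⟩ _ he
      obtain ⟨rfl, rfl⟩ := bitIdx_inj h he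
      rfl
  rw [Finset.card_product, Finset.card_univ, Fintype.card_fin] at h1
  exact h1

open Classical in
/-- The base families of a function of a subformula. -/
noncomputable def baseW (h : N * b ≤ n) (k : ℕ) (ρ : Fin n → Bool) (q : SubFn n) (t : ℝ) :
    Finset (Term N (Fin b → Bool)) :=
  Finset.univ.filter (fun τ => ∃ z : Fin N → (Fin b → Bool),
    τ = (fullBlocks h q.scope, mask (fullBlocks h q.scope) z) ∧
    q.eval (planted (allowed h k) (embR ρ z)) ≤ t)

lemma mem_baseW (h : N * b ≤ n) (k : ℕ) (ρ : Fin n → Bool) (q : SubFn n) (t : ℝ)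
    (τ : Term N (Fin b → Bool)) : τ ∈ baseW h k ρ q t ↔ ∃ z : Fin N → (Fin b → Bool),
    τ = (fullBlocks h q.scope, mask (fullBlocks h q.scope) z) ∧
    q.eval (planted (allowed h k) (embR ρ z)) ≤ t := by
  classical
  unfold baseW
  rw [Finset.mem_filter]
  exact ⟨fun h => h.2, fun h => ⟨Finset.mem_univ _, h⟩⟩

/-- On a system which is clean on the blocks inside the scope, a function of the subformula is at
most its value on the planted formula. -/
lemma sub_le_planted (h : N * b ≤ n) (hb : 0 < b) (k : ℕ) (ρ : Fin n → Bool) (q : SubFn n)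
    (z : Fin N → (Fin b → Bool)) (F : (Finset (Fin N) × (Fin N → (Fin b → Bool))) → Bool)
    (hg : Good k F (fullBlocks h q.scope, mask (fullBlocks h q.scope) z)) :
    q.eval (cnfOf h k F) ≤ q.eval (planted (allowed h k) (embR ρ z)) := by
  unfold SubFn.eval
  apply q.mono
  intro C hC
  unfold induced at *
  obtain ⟨hC1, hC2⟩ := Finset.mem_filter.1 hC
  rw [Finset.mem_filter]
  refine ⟨?_, hC2⟩
  rw [mem_planted]
  refine ⟨cnfOf_subset_allowed h k F hC1, ?_⟩
  intro hf
  unfold cnfOf at hC1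
  obtain ⟨e, he, rfl⟩ := Finset.mem_image.1 hC1
  obtain ⟨_, f1, f2, f3⟩ := Finset.mem_filter.1 he
  rw [falsifies_entry_embR h _ _ f3] at hf
  have hV : e.1 ⊆ fullBlocks h q.scope := by
    intro i hi
    unfold fullBlocks
    rw [Finset.mem_filter]
    refine ⟨Finset.mem_univ _, ?_⟩
    intro j
    exact hC2 _ ((mem_entryClause h e.1 e.2 i j (!(e.2 i j))).2 ⟨hi, rfl⟩)
  have h5 := hg e.1 hV f1
  dsimp only at h5
  rw [mask_mask_of_subset hV, hf] at h5
  have h7 : (e.1, e.2) = e := rfl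
  rw [h7, f2] at h5
  exact absurd h5 (by simp)

/-- The theorem for one assignment of the leftover variables. -/
lemma wide_rho (h : N * b ≤ n) (hb : 0 < b) (k c d : ℕ) (hd : 1 ≤ d) (hk : 1 ≤ k) (hN : 1 ≤ N)
    (p x : ℝ) (h0 : 0 < p) (h1 : p ≤ 1)
    (hx : x = (p ^ (c - 1).choose (k - 1))⁻¹ / 2 ^ d) (hx1 : x ≤ 1) (e f : ℕ)
    (he : 2 * f ≤ 2 ^ e) (M : FCircuit (SubFn n)) (hf : M.FanInLe f)
    (hok : M.Reads (fun q => (fullBlocks h q.scope).card ≤ c)) (v : ℝ) (hv : 0 < v)
    (hnum : v + ((M.size + 1) * ((f + 1) * (((terms N (Fin b → Bool) c).card + 1)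
        * ((terms N (Fin b → Bool) c).card * Real.exp (-(1 / (4 * ((1 + x) ^ N - 1)))))))
      + (Fintype.card (Fin N → (Fin b → Bool)) : ℝ) * p ^ (N.choose k)) ≤ p ^ (c.choose k))
    (hcov : 0 < pr p (fun F => Covers (N := N) (b := b) k F))
    (ρ : Fin n → Bool) (X : Finset (Fin N → (Fin b → Bool)))
    (hX : ∀ y ∈ X, prob (law h k p) (fun φ =>
      M.value φ ≤ M.value (planted (allowed h k) (embR ρ y))) < v) :
    X.card ≤ M.size * (2 ^ ((2 * d + e) * (c + 1)) * (2 ^ b) ^ (N - (c + 1))) := by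
  classical
  have hcardA : Fintype.card (Fin b → Bool) = 2 ^ b := by
    rw [Fintype.card_fun, Fintype.card_bool, Fintype.card_fin]
  obtain ⟨L, hL, hmain⟩ := core_avg (ι := SubFn n)
    (δ := Real.exp (-(1 / (4 * ((1 + x) ^ N - 1))))) h0 h1 d
    hd hk hN x hx hx1 le_rfl e f he M hf (fun q => (fullBlocks h q.scope).card ≤ c) hok
    (fun y => SubFn.eval (planted (allowed h k) (embR ρ y)))
    (fun F => SubFn.eval (cnfOf h k F))
    (baseW h k ρ) (by
      intro q hq t τ hτ
      obtain ⟨z, rfl, _⟩ := (mem_baseW h k ρ q t τ).1 hτ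
      unfold terms
      rw [Finset.mem_filter]
      exact ⟨Finset.mem_univ _, hq, mask_mask_of_subset (Finset.Subset.refl _) _⟩) (by
      intro q s t hst τ hτ
      obtain ⟨z, hz, hz2⟩ := (mem_baseW h k ρ q s τ).1 hτ
      exact (mem_baseW h k ρ q t τ).2 ⟨z, hz, hz2.trans hst⟩) (by
      intro q _ y t hyt
      exact ⟨_, (mem_baseW h k ρ q t _).2 ⟨y, rfl, hyt⟩, rfl⟩) (by
      intro q _ F t hex
      obtain ⟨τ, hτ, hg⟩ := hex
      obtain ⟨z, rfl, hz⟩ := (mem_baseW h k ρ q t τ).1 hτ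
      exact (sub_le_planted h hb k ρ q z F hg).trans hz)
  rw [hcardA] at hL
  refine le_trans (Finset.card_le_card ?_) hL
  intro y hy
  by_contra hyL
  have h2 := hmain y hyL
  have h3 := hX y hy
  rw [prob_law, div_lt_iff₀ hcov] at h3
  have h4 : pr p (fun F => Covers (N := N) (b := b) k F) ≤ 1 := by
    have h5 : pr p (fun F => Covers (N := N) (b := b) k F)
        ≤ ex (E := Finset (Fin N) × (Fin N → (Fin b → Bool))) p (fun _ => 1) := by
      unfold pr
      apply ex_mono h0.le h1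
      intro F
      split_ifs <;> norm_num
    rwa [ex_one] at h5
  have h6 : v * pr p (fun F => Covers (N := N) (b := b) k F) ≤ v := by
    calc _ ≤ v * 1 := mul_le_mul_of_nonneg_left h4 hv.le
      _ = v := mul_one v
  have h7 : pr p (fun F : (Finset (Fin N) × (Fin N → (Fin b → Bool))) → Bool =>
        M.eval (SubFn.eval (cnfOf h k F)) ≤
          M.eval (SubFn.eval (planted (allowed h k) (embR ρ y))) ∧
        ∀ y : Fin N → (Fin b → Bool), ∃ V : Finset (Fin N), V.card = k ∧ F (V, mask V y) = true)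
      ≤ pr p (fun F => Covers k F ∧ M.value (cnfOf h k F)
        ≤ M.value (planted (allowed h k) (embR ρ y))) := by
    apply pr_mono h0.le h1
    rintro F ⟨g1, g2⟩
    exact ⟨g2, g1⟩
  linarith

lemma FCircuit.Reads.imp {ι : Type} {M : FCircuit ι} {P Q : ι → Prop} (h : M.Reads P)
    (hPQ : ∀ i, P i → Q i) : M.Reads Q :=
  ⟨fun j hj l i hi => hPQ i (h.1 j hj l i hi), fun i hi => hPQ i (h.2 i hi)⟩

end WideTransfer

/-- The probability of a covering system. -/
lemma covers_pos (N b k : ℕ) (p : ℝ) (h0 : 0 ≤ p) (h1 : p ≤ 1)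
    (h : (Fintype.card (Fin N → (Fin b → Bool)) : ℝ) * p ^ (N.choose k) < 1) :
    0 < pr p (fun F => Covers (N := N) (b := b) k F) := by
  classical
  have hcover : pr p (fun F : (Finset (Fin N) × (Fin N → (Fin b → Bool))) → Bool =>
      ∃ y : Fin N → (Fin b → Bool), ∀ e ∈ allEntries k y, F e = false)
      ≤ (Fintype.card (Fin N → (Fin b → Bool)) : ℝ) * p ^ (N.choose k) := by
    have e1 : pr p (fun F : (Finset (Fin N) × (Fin N → (Fin b → Bool))) → Bool =>
        ∃ y : Fin N → (Fin b → Bool), ∀ e ∈ allEntries k y, F e = false)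
        ≤ ex p (fun F => ∑ y : Fin N → (Fin b → Bool), ind (allEntries k y) F) := by
      unfold pr
      apply ex_mono h0 h1
      intro F
      by_cases hF : ∃ y : Fin N → (Fin b → Bool), ∀ e ∈ allEntries k y, F e = false
      · rw [if_pos hF]
        obtain ⟨y, hy⟩ := hF
        have e2 : ind (allEntries k y) F = 1 := by
          unfold ind
          rw [if_pos hy]
        rw [← e2]
        exact Finset.single_le_sum (f := fun y => ind (allEntries k y) F)
          (fun z _ => ind_nonneg _ _) (Finset.mem_univ y)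
      · rw [if_neg hF]
        exact Finset.sum_nonneg (fun z _ => ind_nonneg _ _)
    refine e1.trans (le_of_eq ?_)
    rw [ex_sum]
    simp_rw [ex_ind, allEntries_card]
    rw [Finset.sum_const, nsmul_eq_mul, Finset.card_univ]
  have h2 : (1 : ℝ) ≤ pr p (fun F => Covers (N := N) (b := b) k F)
      + pr p (fun F : (Finset (Fin N) × (Fin N → (Fin b → Bool))) → Bool =>
      ∃ y : Fin N → (Fin b → Bool), ∀ e ∈ allEntries k y, F e = false) := by
    refine le_trans ?_ (pr_or_le h0 h1 _ _)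
    rw [← ex_one (E := Finset (Fin N) × (Fin N → (Fin b → Bool))) (p := p)]
    unfold pr
    apply ex_mono h0 h1
    intro F
    rw [if_pos]
    by_cases hF : ∃ y : Fin N → (Fin b → Bool), ∀ e ∈ allEntries k y, F e = false
    · exact Or.inr hF
    · left
      push Not at hF
      intro y
      obtain ⟨e, he, hFe⟩ := hF y
      unfold allEntries at he
      obtain ⟨V, hV, rfl⟩ := Finset.mem_image.1 he
      exact ⟨V, (Finset.mem_powersetCard.1 hV).2, by simpa using hFe⟩
  linarith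

/-- The counting bound, for fixed parameters. -/
lemma wide_regime (ε : ℝ) (hε : 0 < ε) (a k n d b e N N1 : ℕ) (ha3 : 3 ≤ a) (hεa : 8 ≤ ε * a)
    (hk : 1 ≤ k) (hb : b = a * d) (hdpos : 1 ≤ d) (hed : e ≤ d) (hbpos : 0 < b) (hNb : N * b ≤ n)
    (hnlt : n ≤ (N + 1) * b) (haN : a ≤ N) (hN1 : N1 = N - N / a) (hkN1 : k ≤ N1)
    (p x : ℝ) (hp0 : 0 < p) (hp1 : p ≤ 1)
    (hx : x = (p ^ (N1 - 1).choose (k - 1))⁻¹ / 2 ^ d) (hx1 : x ≤ 1) (f : ℕ)
    (he : 2 * f ≤ 2 ^ e) (v : ℝ) (hv : 0 < v)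
    (hnum : ∀ s : ℕ, s < 2 ^ n →
        v + ((s + 1) * ((f + 1) * (((terms N (Fin b → Bool) N1).card + 1)
          * ((terms N (Fin b → Bool) N1).card * Real.exp (-(1 / (4 * ((1 + x) ^ N - 1)))))))
          + (Fintype.card (Fin N → (Fin b → Bool)) : ℝ) * p ^ (N.choose k))
          ≤ p ^ (N1.choose k))
    (hcov : 0 < pr p (fun F => Covers (N := N) (b := b) k F))
    (M : FCircuit (SubFn n)) (hf : M.FanInLe f) (hsc : M.ScopeLe ((1 - ε) * n))
    (X : Finset (Fin n → Bool))
    (hX : ∀ x ∈ X, prob (law hNb k p) (fun φ =>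
      M.value φ ≤ M.value (planted (allowed hNb k) x)) < v) :
    (X.card : ℝ) ≤ M.size * (2 : ℝ) ^ (ε * n) := by
  classical
  have hXle : (X.card : ℝ) ≤ (((Finset.univ : Finset (Fin n → Bool)).filter
      (fun x => prob (law hNb k p) (fun φ =>
      M.value φ ≤ M.value (planted (allowed hNb k) x)) < v)).card : ℝ) := by
    have h5 := Finset.card_le_card (fun x hx => Finset.mem_filter.2 ⟨Finset.mem_univ _, hX x hx⟩ :
      X ⊆ (Finset.univ : Finset (Fin n → Bool)).filter
      (fun x => prob (law hNb k p) (fun φ =>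
      M.value φ ≤ M.value (planted (allowed hNb k) x)) < v))
    exact_mod_cast h5
  refine hXle.trans ?_
  have hdiv1 : 1 ≤ N / a := (Nat.one_le_div_iff (by omega)).2 (by omega)
  rcases Nat.lt_or_ge M.size (2 ^ n) with hsz | hsz
  swap
  · have h1 : (((Finset.univ : Finset (Fin n → Bool)).filter
        (fun x => prob (law hNb k p) (fun φ =>
      M.value φ ≤ M.value (planted (allowed hNb k) x)) < v)).card : ℝ) ≤ 2 ^ n := by
      have h2 := Finset.card_filter_le (Finset.univ : Finset (Fin n → Bool))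
        (fun x => prob (law hNb k p) (fun φ =>
      M.value φ ≤ M.value (planted (allowed hNb k) x)) < v)
      rw [Finset.card_univ, Fintype.card_fun, Fintype.card_bool, Fintype.card_fin] at h2
      exact_mod_cast h2
    have h3 : (2 : ℝ) ^ n ≤ M.size := by exact_mod_cast hsz
    have h4 : (1 : ℝ) ≤ (2 : ℝ) ^ (ε * n) := by
      apply Real.one_le_rpow (by norm_num)
      exact mul_nonneg hε.le (Nat.cast_nonneg _)
    calc _ ≤ (2 : ℝ) ^ n := h1
      _ ≤ M.size * 1 := by linarith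
      _ ≤ M.size * (2 : ℝ) ^ (ε * n) := mul_le_mul_of_nonneg_left h4 (Nat.cast_nonneg _)
  have hok : M.Reads (fun q => (fullBlocks hNb q.scope).card ≤ N1) := by
    apply FCircuit.Reads.imp hsc
    intro q hq
    have h1 := fullBlocks_card hNb q.scope
    have h2 : ((fullBlocks hNb q.scope).card : ℝ) * b ≤ q.scope.card := by exact_mod_cast h1
    have h3 : (n : ℝ) ≤ (N + 1) * b := by exact_mod_cast hnlt
    have hb0 : (0 : ℝ) < b := by exact_mod_cast hbpos
    have hN0 : (0 : ℝ) ≤ N := Nat.cast_nonneg _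
    have ha0 : (0 : ℝ) < a := by
      have : (3 : ℝ) ≤ a := by exact_mod_cast ha3
      linarith
    have h4 : ((fullBlocks hNb q.scope).card : ℝ) < N1 + 1 := by
      by_cases hε1 : ε ≤ 1
      · have h5 : ((fullBlocks hNb q.scope).card : ℝ) * b ≤ ((1 - ε) * (N + 1)) * b := by
          calc ((fullBlocks hNb q.scope).card : ℝ) * b ≤ q.scope.card := h2
            _ ≤ (1 - ε) * n := hq
            _ ≤ (1 - ε) * ((N + 1) * b) := mul_le_mul_of_nonneg_left h3 (by linarith)
            _ = _ := by ring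
        have h6 := le_of_mul_le_mul_right h5 hb0
        have h7 : (N1 : ℝ) = N - (N / a : ℕ) := by
          rw [hN1, Nat.cast_sub (Nat.div_le_self N a)]
        have h8 : ((N / a : ℕ) : ℝ) ≤ N / a := Nat.cast_div_le
        have h9 : (N : ℝ) / a ≤ ε / 8 * N := by
          rw [div_le_iff₀ ha0]
          calc (N : ℝ) = 1 * N := (one_mul _).symm
            _ ≤ (ε * a / 8) * N := mul_le_mul_of_nonneg_right (by linarith) hN0
            _ = ε / 8 * N * a := by ring
        have h10 : 0 ≤ ε * N := mul_nonneg hε.le hN0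
        rw [h7]
        nlinarith
      · push Not at hε1
        have h5 : (q.scope.card : ℝ) ≤ 0 := by
          refine le_trans hq ?_
          apply mul_nonpos_of_nonpos_of_nonneg (by linarith) (Nat.cast_nonneg _)
        have h6 : ((fullBlocks hNb q.scope).card : ℝ) * b ≤ 0 * b := by linarith
        have h7 := le_of_mul_le_mul_right h6 hb0
        have h8 : (0 : ℝ) ≤ N1 := Nat.cast_nonneg _
        linarith
    have h5 : (fullBlocks hNb q.scope).card < N1 + 1 := by exact_mod_cast h4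
    omega
  have hrho : ∀ ρ : Fin n → Bool, (((Finset.univ : Finset (Fin N → (Fin b → Bool))).filter
      (fun y => prob (law hNb k p) (fun φ =>
      M.value φ ≤ M.value (planted (allowed hNb k) (embR ρ y))) < v)).card : ℝ)
      ≤ M.size * 2 ^ (4 * d * N) := by
    intro ρ
    have h1 := wide_rho hNb hbpos k N1 d (by omega) hk (by omega) p x hp0 hp1 hx hx1 e f he
      M hf hok v hv (hnum M.size hsz) hcov ρ
      ((Finset.univ : Finset (Fin N → (Fin b → Bool))).filter
        (fun y => prob (law hNb k p) (fun φ =>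
      M.value φ ≤ M.value (planted (allowed hNb k) (embR ρ y))) < v))
      (fun y hy => (Finset.mem_filter.1 hy).2)
    have h2 : 2 ^ ((2 * d + e) * (N1 + 1)) * (2 ^ b) ^ (N - (N1 + 1)) ≤ 2 ^ (4 * d * N) := by
      rw [← pow_mul, ← pow_add]
      apply Nat.pow_le_pow_right (by norm_num)
      have h3 : b * (N - (N1 + 1)) ≤ d * N := by
        have h4 : a * (N / a) ≤ N := Nat.mul_div_le N a
        calc b * (N - (N1 + 1)) ≤ b * (N / a) := Nat.mul_le_mul_left b (by omega)
          _ = d * (a * (N / a)) := by rw [hb]; ring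
          _ ≤ d * N := Nat.mul_le_mul_left d h4
      have h5 : (2 * d + e) * (N1 + 1) ≤ (3 * d) * N :=
        Nat.mul_le_mul (by omega) (by omega)
      calc (2 * d + e) * (N1 + 1) + b * (N - (N1 + 1)) ≤ (3 * d) * N + d * N :=
            Nat.add_le_add h5 h3
        _ = 4 * d * N := by ring
    have h6 : ((Finset.univ : Finset (Fin N → (Fin b → Bool))).filter
        (fun y => prob (law hNb k p) (fun φ =>
      M.value φ ≤ M.value (planted (allowed hNb k) (embR ρ y))) < v)).card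
        ≤ M.size * 2 ^ (4 * d * N) := h1.trans (Nat.mul_le_mul_left _ h2)
    exact_mod_cast h6
  have havg := average_embR hNb (fun x => prob (law hNb k p) (fun φ =>
      M.value φ ≤ M.value (planted (allowed hNb k) x)) < v) _ hrho
  obtain ⟨Y, hY⟩ : ∃ Y : ℝ, Y = (((Finset.univ : Finset (Fin n → Bool)).filter
    (fun x => prob (law hNb k p) (fun φ =>
      M.value φ ≤ M.value (planted (allowed hNb k) x)) < v)).card : ℝ) := ⟨_, rfl⟩
  rw [← hY] at havg ⊢
  have hfin : Y * 2 ^ (b * N) ≤ (M.size * (2 : ℝ) ^ (ε * n)) * 2 ^ (b * N) := by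
    refine havg.trans ?_
    have e1 : (2 : ℝ) ^ n * (M.size * 2 ^ (4 * d * N))
        = M.size * (2 : ℝ) ^ ((n + 4 * d * N : ℕ) : ℝ) := by
      rw [Real.rpow_natCast, pow_add]
      ring
    have e2 : (M.size * (2 : ℝ) ^ (ε * n)) * 2 ^ (b * N)
        = M.size * (2 : ℝ) ^ (ε * n + (b * N : ℕ)) := by
      rw [Real.rpow_add (by norm_num), Real.rpow_natCast]
      ring
    rw [e1, e2]
    apply mul_le_mul_of_nonneg_left _ (Nat.cast_nonneg _)
    apply Real.rpow_le_rpow_of_exponent_le (by norm_num)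
    have e3 : n + 4 * d * N ≤ b * N + 5 * d * N := by
      have e4 : b ≤ d * N := by
        rw [hb, mul_comm]
        exact Nat.mul_le_mul_left d (by omega)
      have e5 : (N + 1) * b = b * N + b := by ring
      have e6 : 5 * d * N = d * N + 4 * d * N := by ring
      omega
    have e7 : ((n + 4 * d * N : ℕ) : ℝ) ≤ ((b * N + 5 * d * N : ℕ) : ℝ) := by exact_mod_cast e3
    refine e7.trans ?_
    have e8 : (5 * d * N : ℝ) ≤ ε * n := by
      have e9 : ((N * b : ℕ) : ℝ) ≤ n := by exact_mod_cast hNb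
      have e10 : ((N * b : ℕ) : ℝ) = a * (d * N) := by
        rw [hb]
        push_cast
        ring
      rw [e10] at e9
      have e11 : (0 : ℝ) ≤ d * N := mul_nonneg (Nat.cast_nonneg _) (Nat.cast_nonneg _)
      calc (5 * d * N : ℝ) ≤ 8 * (d * N) := by linarith
        _ ≤ (ε * a) * (d * N) := mul_le_mul_of_nonneg_right hεa e11
        _ = ε * (a * (d * N)) := by ring
        _ ≤ ε * n := mul_le_mul_of_nonneg_left e9 hε.le
    push_cast
    linarith
  exact le_of_mul_le_mul_right hfin (by positivity)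

/-- The theorem with explicit exponent. -/
lemma wide_aux (ε : ℝ) (hε : 0 < ε) (a k0 K : ℕ) (ha3 : 3 ≤ a) (hεa : 8 ≤ ε * a)
    (hk0 : 1 ≤ k0) (hak0 : 4 * a ≤ k0)
    (hka0 : (8 * a * k0 : ℝ) * (1 - 1 / (2 * a)) ^ (k0 - 1) ≤ 1)
    (hK : K = 52 * a * (2 * (k0 + 4 * a) + 2 * a) + 2 * (k0 + 4 * a) + 4)
    (n f r : ℕ) (hn : 1 ≤ n) (hf : 1 ≤ f) (hr : 1 ≤ r) (hpoly : (n + f) ^ (K * r) ≤ 2 ^ n) :
    ∃ (𝒞 : CNF n) (μ : CNF n → ℝ), 𝒞.card ≤ (n + f) ^ (K * r) ∧
      (∀ C ∈ 𝒞, 4 ^ C.card ≤ (n + f) ^ (K * r)) ∧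
      (∀ x y : Fin n → Bool, (∀ C ∈ planted 𝒞 x, ¬ Falsifies y C) → y = x) ∧
      UnsatDistribution 𝒞 μ ∧
      ∀ M : FCircuit (SubFn n), M.FanInLe f → M.ScopeLe ((1 - ε) * n) →
        ∀ X : Finset (Fin n → Bool),
        (∀ x ∈ X, prob μ (fun φ => M.value φ ≤ M.value (planted 𝒞 x))
          < (2 : ℝ) ^ (-(n : ℝ) / 2 ^ r)) →
        (X.card : ℝ) ≤ M.size * (2 : ℝ) ^ (ε * n) := by
  obtain ⟨B, hB⟩ : ∃ B, B = n + f := ⟨_, rfl⟩
  rw [← hB] at hpoly ⊢
  have hB2 : 2 ≤ B := by omega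
  have hKr : K * r ≤ n := by
    have h1 : 2 ^ (K * r) ≤ 2 ^ n := (Nat.pow_le_pow_left hB2 _).trans hpoly
    exact (Nat.pow_le_pow_iff_right (by norm_num)).1 h1
  obtain ⟨W, hW⟩ : ∃ W, W = n + 4 := ⟨_, rfl⟩
  have hn4 : 4 ≤ n := by
    have h1 : K * 1 ≤ K * r := Nat.mul_le_mul_left K hr
    omega
  have hWB : W ≤ B ^ 3 := by
    have h1 : B ^ 3 = B * B * B := by ring
    have h2 : B * 2 ≤ B * B := Nat.mul_le_mul_left B hB2
    have h3 : (B * B) * 2 ≤ B * B * B := Nat.mul_le_mul_left _ hB2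
    omega
  obtain ⟨hd1, hd2⟩ := dprime_spec W B (by omega) hB2 hWB
  obtain ⟨e, he⟩ : ∃ e, e = Nat.clog 2 (2 * f) := ⟨_, rfl⟩
  have he1 : 2 * f ≤ 2 ^ e := by rw [he]; exact Nat.le_pow_clog (by norm_num) _
  have he2 : 2 ^ e ≤ B ^ 3 := by
    have h2 : 2 ^ (Nat.clog 2 (2 * f) - 1) < 2 * f := by
      have := Nat.pow_pred_clog_lt_self (b := 2) (by norm_num) (by omega : 1 < 2 * f)
      simpa using this
    have h3 : 1 ≤ Nat.clog 2 (2 * f) := Nat.clog_pos (by norm_num) (by omega)
    have h4 : 2 ^ e = 2 * 2 ^ (Nat.clog 2 (2 * f) - 1) := by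
      rw [← pow_succ', he]
      congr 1
      omega
    have h5 : B ^ 3 = B * B * B := by ring
    have h6 : 2 * 2 ≤ B * B := Nat.mul_le_mul hB2 hB2
    have h7 : 2 * 2 * f ≤ B * B * B := Nat.mul_le_mul h6 (by omega)
    omega
  obtain ⟨d', hd'⟩ : ∃ d', d' = (4 * Nat.clog 2 W + 7) + e := ⟨_, rfl⟩
  have hd1' : 128 * W ^ 4 ≤ 2 ^ d' := by
    refine hd1.trans ?_
    apply Nat.pow_le_pow_right (by norm_num)
    omega
  have hd2' : 2 ^ d' ≤ B ^ 26 := by
    rw [hd', pow_add]
    calc 2 ^ (4 * Nat.clog 2 W + 7) * 2 ^ e ≤ B ^ 23 * B ^ 3 := Nat.mul_le_mul hd2 he2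
      _ = B ^ 26 := by ring
  obtain ⟨d, hd⟩ : ∃ d, d = 2 * d' := ⟨_, rfl⟩
  obtain ⟨b, hb⟩ : ∃ b, b = a * d := ⟨_, rfl⟩
  have hdpos : 14 ≤ d := by omega
  have hbpos : 0 < b := by
    rw [hb]
    exact Nat.mul_pos (by omega) (by omega)
  obtain ⟨N, hN⟩ : ∃ N, N = n / b := ⟨_, rfl⟩
  have hNb : N * b ≤ n := by rw [hN]; exact Nat.div_mul_le_self n b
  have hNn : N ≤ n := (Nat.le_mul_of_pos_right N hbpos).trans hNb
  obtain ⟨k, hk⟩ : ∃ k, k = k0 + 4 * a * r := ⟨_, rfl⟩
  have hk1 : 1 ≤ k := by omega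
  have hkr : k ≤ (k0 + 4 * a) * r := by
    rw [hk, add_mul]
    exact Nat.add_le_add (Nat.le_mul_of_pos_right _ hr) le_rfl
  have h2kr : 2 * k + 2 * a ≤ (2 * (k0 + 4 * a) + 2 * a) * r := by
    have h1 : 2 * a ≤ 2 * a * r := Nat.le_mul_of_pos_right _ hr
    calc 2 * k + 2 * a ≤ 2 * ((k0 + 4 * a) * r) + 2 * a * r := by omega
      _ = _ := by ring
  -- powers of two in terms of B
  have hpow : ∀ m : ℕ, 2 ^ (m * b) ≤ B ^ (52 * a * m) := by
    intro m
    calc 2 ^ (m * b) = (2 ^ d') ^ (2 * a * m) := by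
          rw [← pow_mul, hb, hd]; congr 1; ring
      _ ≤ (B ^ 26) ^ (2 * a * m) := Nat.pow_le_pow_left hd2' _
      _ = B ^ (52 * a * m) := by rw [← pow_mul]; congr 1; ring
  have hB1 : 1 < B := by omega
  have hreg : (2 * k + 2 * a) * b ≤ n := by
    by_contra hreg
    push Not at hreg
    have h1 : 2 ^ n < 2 ^ ((2 * k + 2 * a) * b) := Nat.pow_lt_pow_right (by norm_num) hreg
    have h2 := hpow (2 * k + 2 * a)
    have h3 : B ^ (52 * a * (2 * k + 2 * a)) ≤ B ^ (K * r) := by
      apply Nat.pow_le_pow_right (by omega)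
      calc 52 * a * (2 * k + 2 * a) ≤ 52 * a * ((2 * (k0 + 4 * a) + 2 * a) * r) :=
            Nat.mul_le_mul_left _ h2kr
        _ = (52 * a * (2 * (k0 + 4 * a) + 2 * a)) * r := by ring
        _ ≤ K * r := Nat.mul_le_mul_right r (by omega)
    exact absurd (h1.trans_le (h2.trans (h3.trans hpoly))) (lt_irrefl _)
  have hm0N : 2 * k + 2 * a ≤ N := by rw [hN]; exact (Nat.le_div_iff_mul_le hbpos).2 hreg
  have hnlt : n ≤ (N + 1) * b := by
    have h1 := Nat.div_add_mod n b
    have h2 := Nat.mod_lt n hbpos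
    rw [← hN] at h1
    have h3 : (N + 1) * b = b * N + b := by ring
    omega
  have hNb2 : n ≤ 2 * N * b := by
    have h3 : (N + 1) * b ≤ 2 * N * b := Nat.mul_le_mul_right b (by omega)
    omega
  obtain ⟨N1, hN1⟩ : ∃ N1, N1 = N - N / a := ⟨_, rfl⟩
  have hdiv2 : N / a ≤ N / 2 := Nat.div_le_div_left (by omega) (by norm_num)
  have hdiv1 : 1 ≤ N / a := (Nat.one_le_div_iff (by omega)).2 (by omega)
  have hkN1 : k ≤ N1 := by omega
  have hka : (8 * a * (k : ℝ)) * (1 - 1 / (2 * a)) ^ (k - 1) ≤ 1 := by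
    rw [hk]
    exact arity_cond a k0 r (by omega) hak0 hka0
  have hrat : (N1.choose k : ℝ) * 2 ^ (r + 2) ≤ N.choose k := by
    rw [hk]
    exact choose_small a k0 r N N1 (by omega) hak0 hr (by omega) hN1
  have h4r : 4 * r ≤ n := by
    have h1 : 4 * r ≤ K * r := Nat.mul_le_mul_right r (by omega)
    omega
  obtain ⟨p, x, hp0, hp1, hx, hx1, hnum⟩ := wide_params a k n d' d b N N1 W r (by omega) hk1 hka hW
    hd1' hd hb hNb hNb2 (by omega) (by omega) hN1 hr h4r hrat
  have h2f : 2 * f ≤ 2 ^ n := by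
    have h1 : B ^ 3 ≤ B ^ (K * r) := by
      apply Nat.pow_le_pow_right (by omega)
      have h1 : K * 1 ≤ K * r := Nat.mul_le_mul_left K hr
      omega
    exact he1.trans (he2.trans (h1.trans hpoly))
  obtain ⟨v, hv⟩ : ∃ v : ℝ, v = (2 : ℝ) ^ (-(n : ℝ) / 2 ^ r) := ⟨_, rfl⟩
  have hv0 : 0 < v := by rw [hv]; positivity
  have hnum' : ∀ s : ℕ, s < 2 ^ n →
        v + ((s + 1) * ((f + 1) * (((terms N (Fin b → Bool) N1).card + 1)
          * ((terms N (Fin b → Bool) N1).card * Real.exp (-(1 / (4 * ((1 + x) ^ N - 1)))))))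
          + (Fintype.card (Fin N → (Fin b → Bool)) : ℝ) * p ^ (N.choose k))
          ≤ p ^ (N1.choose k) := by
    intro s hs
    rw [hv]
    exact hnum s f hs h2f
  have hcov : 0 < pr p (fun F => Covers (N := N) (b := b) k F) := by
    apply covers_pos N b k p hp0.le hp1
    have h1 := hnum' 0 (by positivity)
    have h2 : p ^ (N1.choose k) ≤ 1 := pow_le_one₀ hp0.le hp1
    have h3 : (0 : ℝ) ≤ (((0 : ℕ) : ℝ) + 1) * ((f + 1) * (((terms N (Fin b → Bool) N1).card + 1)
          * ((terms N (Fin b → Bool) N1).card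
            * Real.exp (-(1 / (4 * ((1 + x) ^ N - 1))))))) := by positivity
    linarith
  refine ⟨allowed hNb k, law hNb k p, ?_, ?_,
    fun x y hxy => planted_unique hNb k hk1 (by omega) x y hxy,
    law_distribution hNb k p hp0.le hp1 hcov, ?_⟩
  · have h1 : (cnfOf hNb k (fun _ => true)).card ≤ B ^ (k + 52 * a * k) := by
      refine (cnfOf_card hNb k (by omega) _).trans ?_
      rw [pow_add]
      apply Nat.mul_le_mul (Nat.pow_le_pow_left (by omega) k)
      rw [mul_comm b k]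
      exact hpow k
    have h2 : (allowed hNb k).card ≤ B ^ (k + 52 * a * k) + 2 * n := by
      unfold allowed
      exact (Finset.card_union_le _ _).trans (Nat.add_le_add h1 (leftUnits_card n (N * b)))
    have h3 : 2 * n ≤ B * B := Nat.mul_le_mul hB2 (by omega)
    have h4 : B ^ (k + 52 * a * k) + B * B ≤ B ^ (k + 52 * a * k + 2) := by
      obtain ⟨Q, hQ⟩ : ∃ Q, Q = B ^ (k + 52 * a * k) := ⟨_, rfl⟩
      have h5 : B ≤ Q := by
        rw [hQ]
        calc B = B ^ 1 := (pow_one B).symm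
          _ ≤ _ := Nat.pow_le_pow_right (by omega) (by omega)
      have h6 : B ^ (k + 52 * a * k + 2) = Q * (B * B) := by
        rw [hQ, pow_add B (k + 52 * a * k) 2, pow_two]
      rw [h6, ← hQ]
      have h10 : 1 * (B * B) ≤ Q * (B * B) - Q := by
        have h11 : Q * (B * B) = Q * (B * B - 1) + Q := by
          have h12 : 1 ≤ B * B := Nat.mul_pos (by omega) (by omega)
          obtain ⟨m, hm⟩ := Nat.exists_eq_add_of_le h12
          rw [hm]
          have : 1 + m - 1 = m := by omega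
          rw [this]
          ring
        rw [h11, Nat.add_sub_cancel]
        have h13 : 2 * (B * B - 1) ≤ Q * (B * B - 1) := Nat.mul_le_mul_right _ (by omega)
        have h14 : 4 ≤ B * B := Nat.mul_le_mul hB2 hB2
        omega
      omega
    refine h2.trans (le_trans (by omega) (h4.trans ?_))
    apply Nat.pow_le_pow_right (by omega)
    have h7 : k + 52 * a * k ≤ (52 * a + 1) * ((k0 + 4 * a) * r) := by
      calc k + 52 * a * k = (52 * a + 1) * k := by ring
        _ ≤ _ := Nat.mul_le_mul_left _ hkr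
    have h8 : (52 * a + 1) * ((k0 + 4 * a) * r) = (52 * a * (k0 + 4 * a) + (k0 + 4 * a)) * r := by
      ring
    have h9 : (52 * a * (k0 + 4 * a) + (k0 + 4 * a)) * r + 2 * r ≤ K * r := by
      rw [← add_mul]
      apply Nat.mul_le_mul_right
      rw [hK]
      have : 52 * a * (k0 + 4 * a) ≤ 52 * a * (2 * (k0 + 4 * a) + 2 * a) :=
        Nat.mul_le_mul_left _ (by omega)
      omega
    omega
  · intro C hC
    unfold allowed at hC
    rcases Finset.mem_union.1 hC with hC | hC
    · have h1 := cnfOf_width hNb k _ C hC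
      calc 4 ^ C.card = 2 ^ (2 * C.card) := by rw [pow_mul]; norm_num
        _ ≤ 2 ^ ((2 * k) * b) := by
            apply Nat.pow_le_pow_right (by norm_num)
            rw [mul_assoc]
            exact Nat.mul_le_mul_left 2 h1
        _ ≤ B ^ (52 * a * (2 * k)) := hpow (2 * k)
        _ ≤ B ^ (K * r) := by
            apply Nat.pow_le_pow_right (by omega)
            calc 52 * a * (2 * k) ≤ 52 * a * (2 * ((k0 + 4 * a) * r)) :=
                  Nat.mul_le_mul_left _ (Nat.mul_le_mul_left 2 hkr)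
              _ = (52 * a * (2 * (k0 + 4 * a))) * r := by ring
              _ ≤ K * r := by
                  apply Nat.mul_le_mul_right
                  rw [hK]
                  have : 52 * a * (2 * (k0 + 4 * a)) ≤ 52 * a * (2 * (k0 + 4 * a) + 2 * a) :=
                    Nat.mul_le_mul_left _ (by omega)
                  omega
    · unfold leftUnits at hC
      obtain ⟨l, _, rfl⟩ := Finset.mem_image.1 hC
      rw [Finset.card_singleton]
      calc 4 ^ 1 ≤ B ^ 2 := by nlinarith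
        _ ≤ B ^ (K * r) := by
            apply Nat.pow_le_pow_right (by omega)
            have h1 : K * 1 ≤ K * r := Nat.mul_le_mul_left K hr
            omega
  · intro M hM hsc X hX
    exact wide_regime ε hε a k n d b e N N1 ha3 hεa hk1 hb (by omega) (by omega) hbpos hNb hnlt
      (by omega) hN1 hkN1 p x hp0 hp1 hx hx1 f he1 v hv0 hnum' hcov M hM hsc X
      (fun z hz => by rw [hv]; exact hX z hz)

/-- **Monotone real circuits with gates of large fan-in, average case.** -/
theorem wide_main (ε : ℝ) (hε : 0 < ε) : ∃ K : ℕ, ∀ n f r : ℕ, 1 ≤ n → 1 ≤ f → 1 ≤ r →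
    (n + f) ^ (K * r) ≤ 2 ^ n →
    ∃ (𝒞 : CNF n) (μ : CNF n → ℝ), 𝒞.card ≤ (n + f) ^ (K * r) ∧
      (∀ C ∈ 𝒞, 4 ^ C.card ≤ (n + f) ^ (K * r)) ∧
      (∀ x y : Fin n → Bool, (∀ C ∈ planted 𝒞 x, ¬ Falsifies y C) → y = x) ∧
      UnsatDistribution 𝒞 μ ∧
      ∀ M : FCircuit (SubFn n), M.FanInLe f → M.ScopeLe ((1 - ε) * n) →
        ∀ X : Finset (Fin n → Bool),
        (∀ x ∈ X, 1 - (2 : ℝ) ^ (-(n : ℝ) / 2 ^ r)
          < prob μ (fun φ => M.value (planted 𝒞 x) < M.value φ)) →
        (X.card : ℝ) ≤ M.size * (2 : ℝ) ^ (ε * n) := by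
  obtain ⟨a, ha3, hεa⟩ : ∃ a : ℕ, 3 ≤ a ∧ 8 ≤ ε * a := by
    refine ⟨⌈8 / ε⌉₊ + 2, ?_, ?_⟩
    · have : 0 < ⌈8 / ε⌉₊ := Nat.ceil_pos.2 (by positivity)
      omega
    · have h1 := Nat.le_ceil (8 / ε)
      have h2 : 8 / ε ≤ ((⌈8 / ε⌉₊ + 2 : ℕ) : ℝ) := by push_cast; linarith
      rw [div_le_iff₀ hε] at h2
      linarith
  obtain ⟨k0, hk1, hk2, hka⟩ := exists_k_ge a (4 * a) (by omega)
  obtain ⟨K, hK⟩ : ∃ K, K = 52 * a * (2 * (k0 + 4 * a) + 2 * a) + 2 * (k0 + 4 * a) + 4 :=
    ⟨_, rfl⟩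
  refine ⟨K, ?_⟩
  intro n f r hn hf hr hpoly
  obtain ⟨𝒞, μ, h1, h2, h3, h4, h5⟩ := wide_aux ε hε a k0 K ha3 hεa hk2 hk1 hka hK n f r hn hf hr
    hpoly
  refine ⟨𝒞, μ, h1, h2, h3, h4, ?_⟩
  intro M hM hsc X hX
  apply h5 M hM hsc X
  intro x hx
  have h6 := hX x hx
  have h7 := prob_add_compl μ (fun φ => M.value (planted 𝒞 x) < M.value φ)
  rw [h4.sum_eq_one] at h7
  have h8 : (fun φ => ¬ M.value (planted 𝒞 x) < M.value φ)
      = (fun φ => M.value φ ≤ M.value (planted 𝒞 x)) := by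
    funext φ
    exact propext not_lt
  rw [h8] at h7
  linarith

end Pool.Agent.T9h20
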